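import Mathlib

/-! Site percolation on `ℤ^d`: the definitions used in the statements. -/

namespace Pool.Agent.Perc

open MeasureTheory ProbabilityTheory

/-- `x` and `y` are joined by a path inside `ω` (steps along `adj`). -/
def Jn {V : Type*} (adj : V → V → Prop) (ω : Set V) (x y : V) : Prop :=
  x ∈ ω ∧ Relation.ReflTransGen (fun a b => adj a b ∧ b ∈ ω) x y

/-- Sites of `ℤ^d`. -/
abbrev Site (d : ℕ) := Fin d → ℤ

/-- `x` and `y` are at Euclidean distance one (they differ by `±1` in exactly one coordinate). -/
def Nbr {d : ℕ} (x y : Site d) : Prop := ∑ i, |x i - y i| = 1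

/-- The open cluster of `x`: all sites joined to `x` by an open path (empty if `x` is closed). -/
def cluster {d : ℕ} (ω : Set (Site d)) (x : Site d) : Set (Site d) := {y | Jn Nbr ω x y}

/-- Law of the random set of open sites: every site is open with probability `p`,
independently. -/
noncomputable def mu (d : ℕ) (p : unitInterval) : Measure (Set (Site d)) :=
  setBernoulli (Set.univ : Set (Site d)) p

/-- Percolation probability. -/
noncomputable def theta (d : ℕ) (p : unitInterval) : ENNReal :=
  mu d p {ω | (cluster ω 0).Infinite}

/-- Critical parameter. -/
noncomputable def pc (d : ℕ) : unitInterval := sSup {p | theta d p = 0}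

/-- The box of radius `r` around `c`: all sites at sup-distance at most `r` from `c`. -/
noncomputable def box {d : ℕ} (c : Site d) (r : ℕ) : Finset (Site d) :=
  Finset.Icc (fun i => c i - r) (fun i => c i + r)

/-- `x` is the centre of a hole of inner radius `k` and outer radius `r`: every open path that
starts in the box of radius `k` around `x` stays in the box of radius `r` around `x`. -/
def IsHole {d : ℕ} (k r : ℕ) (ω : Set (Site d)) (x : Site d) : Prop :=
  ∀ a ∈ box x k, ∀ y, Jn Nbr ω a y → y ∈ box x r

end Pool.Agent.Perc
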