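import Mathlib
import Pool.Agent.Perc.Defs

/-! Percolation library, part 1: finite-volume expectations and open connections. -/

namespace Pool.Agent.Perc

open Finset

section Joined
variable {V : Type*}

variable {adj : V → V → Prop} {ω ω' : Set V} {x y z : V}

theorem Jn.mem_left (h : Jn adj ω x y) : x ∈ ω := h.1

theorem Jn.mem_right (h : Jn adj ω x y) : y ∈ ω := by
  obtain ⟨hx, h⟩ := h
  induction h with
  | refl => exact hx
  | tail _ h2 _ => exact h2.2

theorem Jn.refl (h : x ∈ ω) : Jn adj ω x x := ⟨h, Relation.ReflTransGen.refl⟩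

theorem Jn.trans (h1 : Jn adj ω x y) (h2 : Jn adj ω y z) : Jn adj ω x z :=
  ⟨h1.1, h1.2.trans h2.2⟩

theorem Jn.step (h1 : Jn adj ω x y) (h2 : adj y z) (h3 : z ∈ ω) : Jn adj ω x z :=
  ⟨h1.1, h1.2.tail ⟨h2, h3⟩⟩

theorem Jn.single (hx : x ∈ ω) (h : adj x y) (hy : y ∈ ω) : Jn adj ω x y :=
  (Jn.refl hx).step h hy

theorem Jn.mono (h : ω ⊆ ω') (hj : Jn adj ω x y) : Jn adj ω' x y :=
  ⟨h hj.1, Relation.ReflTransGen.mono (fun _ _ hab => ⟨hab.1, h hab.2⟩) _ _ hj.2⟩

theorem Jn.symm (hs : ∀ a b, adj a b → adj b a) (h : Jn adj ω x y) : Jn adj ω y x := by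
  obtain ⟨hx, h⟩ := h
  induction h with
  | refl => exact Jn.refl hx
  | tail h1 h2 ih =>
    have hb : Jn adj ω x _ := ⟨hx, h1⟩
    exact (Jn.single h2.2 (hs _ _ h2.1) hb.mem_right).trans ih

/-- Induction principle: a set containing `x` and closed under open steps contains all points
joined to `x`. -/
theorem Jn.induct {P : V → Prop} (h : Jn adj ω x y) (hx : P x)
    (hstep : ∀ a b, Jn adj ω x a → P a → adj a b → b ∈ ω → P b) : P y := by
  obtain ⟨hxω, h⟩ := h
  induction h with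
  | refl => exact hx
  | tail h1 h2 ih => exact hstep _ _ ⟨hxω, h1⟩ ih h2.1 h2.2

end Joined

section Expectation
variable {V : Type*} [DecidableEq V]

/-- Expectation of `f` for Bernoulli(`p`) site percolation on the finite set `Q`. -/
noncomputable def E (p : ℝ) (Q : Finset V) (f : Finset V → ℝ) : ℝ :=
  ∑ ω ∈ Q.powerset, p ^ ω.card * (1 - p) ^ (Q \ ω).card * f ω

open Classical in
/-- Probability of the event `A` for Bernoulli(`p`) site percolation on the finite set `Q`. -/
noncomputable def Pr (p : ℝ) (Q : Finset V) (A : Finset V → Prop) : ℝ :=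
  E p Q (fun ω => if A ω then 1 else 0)

theorem E_empty (p : ℝ) (f : Finset V → ℝ) : E p ∅ f = f ∅ := by
  simp [E]

theorem E_insert (p : ℝ) {Q : Finset V} {v : V} (hv : v ∉ Q) (f : Finset V → ℝ) :
    E p (insert v Q) f = (1 - p) * E p Q f + p * E p Q (fun ω => f (insert v ω)) := by
  unfold E
  rw [Finset.sum_powerset_insert hv, Finset.mul_sum, Finset.mul_sum]
  congr 1
  · apply Finset.sum_congr rfl
    intro ω hω
    have hω' := Finset.mem_powerset.1 hω
    have h1 : v ∉ ω := fun h => hv (hω' h)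
    have h2 : (insert v Q \ ω) = insert v (Q \ ω) := by
      rw [Finset.insert_sdiff_of_notMem _ h1]
    have h3 : v ∉ Q \ ω := fun h => hv (Finset.mem_sdiff.1 h).1
    rw [h2, Finset.card_insert_of_notMem h3]
    ring
  · apply Finset.sum_congr rfl
    intro ω hω
    have hω' := Finset.mem_powerset.1 hω
    have h1 : v ∉ ω := fun h => hv (hω' h)
    have h2 : (insert v Q \ insert v ω) = Q \ ω := by
      ext a
      simp only [Finset.mem_sdiff, Finset.mem_insert]
      constructor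
      · rintro ⟨h | h, h'⟩
        · exact absurd (Or.inl h) h'
        · exact ⟨h, fun h2 => h' (Or.inr h2)⟩
      · rintro ⟨h, h'⟩
        refine ⟨Or.inr h, ?_⟩
        rintro (h2 | h2)
        · exact hv (h2 ▸ h)
        · exact h' h2
    rw [h2, Finset.card_insert_of_notMem h1]
    ring

theorem E_congr {p : ℝ} {Q : Finset V} {f g : Finset V → ℝ} (h : ∀ ω, ω ⊆ Q → f ω = g ω) :
    E p Q f = E p Q g := by
  unfold E
  apply Finset.sum_congr rfl
  intro ω hω
  rw [h ω (Finset.mem_powerset.1 hω)]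

theorem E_mono {p : ℝ} (hp0 : 0 ≤ p) (hp1 : p ≤ 1) {Q : Finset V} {f g : Finset V → ℝ}
    (h : ∀ ω, ω ⊆ Q → f ω ≤ g ω) : E p Q f ≤ E p Q g := by
  unfold E
  apply Finset.sum_le_sum
  intro ω hω
  apply mul_le_mul_of_nonneg_left (h ω (Finset.mem_powerset.1 hω))
  have : (0 : ℝ) ≤ 1 - p := by linarith
  positivity

theorem E_add (p : ℝ) (Q : Finset V) (f g : Finset V → ℝ) :
    E p Q (fun ω => f ω + g ω) = E p Q f + E p Q g := by
  unfold E
  rw [← Finset.sum_add_distrib]
  apply Finset.sum_congr rfl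
  intro ω _
  ring

theorem E_sub (p : ℝ) (Q : Finset V) (f g : Finset V → ℝ) :
    E p Q (fun ω => f ω - g ω) = E p Q f - E p Q g := by
  unfold E
  rw [← Finset.sum_sub_distrib]
  apply Finset.sum_congr rfl
  intro ω _
  ring

theorem E_const_mul (p : ℝ) (Q : Finset V) (c : ℝ) (f : Finset V → ℝ) :
    E p Q (fun ω => c * f ω) = c * E p Q f := by
  unfold E
  rw [Finset.mul_sum]
  apply Finset.sum_congr rfl
  intro ω _
  ring

theorem E_mul_const (p : ℝ) (Q : Finset V) (c : ℝ) (f : Finset V → ℝ) :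
    E p Q (fun ω => f ω * c) = E p Q f * c := by
  unfold E
  rw [Finset.sum_mul]
  apply Finset.sum_congr rfl
  intro ω _
  ring

theorem E_sum {ι : Type*} (p : ℝ) (Q : Finset V) (s : Finset ι) (f : ι → Finset V → ℝ) :
    E p Q (fun ω => ∑ i ∈ s, f i ω) = ∑ i ∈ s, E p Q (f i) := by
  unfold E
  rw [Finset.sum_comm]
  apply Finset.sum_congr rfl
  intro ω _
  rw [Finset.mul_sum]

theorem E_const (p : ℝ) (Q : Finset V) (c : ℝ) : E p Q (fun _ => c) = c := by
  induction Q using Finset.induction_on with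
  | empty => exact E_empty p _
  | insert v Q hv ih => rw [E_insert p hv, ih]; ring

theorem E_zero (p : ℝ) (Q : Finset V) : E p Q (fun _ => 0) = 0 := E_const p Q 0

theorem E_nonneg {p : ℝ} (hp0 : 0 ≤ p) (hp1 : p ≤ 1) {Q : Finset V} {f : Finset V → ℝ}
    (h : ∀ ω, ω ⊆ Q → 0 ≤ f ω) : 0 ≤ E p Q f := by
  rw [← E_zero p Q]
  exact E_mono hp0 hp1 h

/-- Fubini: percolation on a disjoint union. -/
theorem E_fubini (p : ℝ) {Q1 Q2 : Finset V} (hd : Disjoint Q1 Q2) (f : Finset V → ℝ) :
    E p (Q1 ∪ Q2) f = E p Q1 (fun ω1 => E p Q2 (fun ω2 => f (ω1 ∪ ω2))) := by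
  induction Q1 using Finset.induction_on generalizing f with
  | empty =>
    rw [E_empty, Finset.empty_union]
    simp
  | insert v Q hv ih =>
    have hd' : Disjoint Q Q2 := by
      rw [Finset.disjoint_insert_left] at hd; exact hd.2
    have hv2 : v ∉ Q2 := by
      rw [Finset.disjoint_insert_left] at hd; exact hd.1
    have hvu : v ∉ Q ∪ Q2 := by
      rw [Finset.mem_union]; tauto
    rw [Finset.insert_union, E_insert p hvu, E_insert p hv, ih hd', ih hd']
    simp only [Finset.insert_union]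

/-- If `f` depends only on `ω ∩ Q1` one can restrict to `Q1`. -/
theorem E_restrict (p : ℝ) {Q1 Q : Finset V} (h : Q1 ⊆ Q) (f : Finset V → ℝ)
    (hf : ∀ ω, ω ⊆ Q → f ω = f (ω ∩ Q1)) : E p Q f = E p Q1 f := by
  have hQ : Q1 ∪ (Q \ Q1) = Q := Finset.union_sdiff_of_subset h
  have hd : Disjoint Q1 (Q \ Q1) := Finset.disjoint_sdiff
  conv_lhs => rw [← hQ]
  rw [E_fubini p hd]
  apply E_congr
  intro ω1 h1
  rw [E_congr (g := fun _ => f ω1), E_const]
  intro ω2 h2
  have h3 : ω1 ∪ ω2 ⊆ Q := Finset.union_subset (h1.trans h) (h2.trans Finset.sdiff_subset)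
  rw [hf _ h3]
  congr 1
  ext a
  simp only [Finset.mem_inter, Finset.mem_union]
  constructor
  · rintro ⟨h4 | h4, h5⟩
    · exact h4
    · exact absurd h5 (Finset.mem_sdiff.1 (h2 h4)).2
  · intro h4
    exact ⟨Or.inl h4, h1 h4⟩

theorem E_union_right (p : ℝ) {Q1 Q2 : Finset V} (hd : Disjoint Q1 Q2) (f : Finset V → ℝ) :
    E p (Q1 ∪ Q2) f = E p Q2 (fun ω2 => E p Q1 (fun ω1 => f (ω1 ∪ ω2))) := by
  rw [Finset.union_comm, E_fubini p hd.symm]
  apply E_congr; intro ω _
  apply E_congr; intro ω' _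
  rw [Finset.union_comm]

theorem E_swap (p q : ℝ) (Q1 Q2 : Finset V) (f : Finset V → Finset V → ℝ) :
    E p Q1 (fun a => E q Q2 (fun b => f a b)) = E q Q2 (fun b => E p Q1 (fun a => f a b)) := by
  unfold E
  simp_rw [Finset.mul_sum]
  rw [Finset.sum_comm]
  apply Finset.sum_congr rfl; intro a _
  apply Finset.sum_congr rfl; intro b _
  ring

/-! ### Probabilities -/

theorem Pr_nonneg {p : ℝ} (hp0 : 0 ≤ p) (hp1 : p ≤ 1) (Q : Finset V) (A : Finset V → Prop) :
    0 ≤ Pr p Q A := by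
  classical
  unfold Pr
  apply E_nonneg hp0 hp1
  intro ω _
  split_ifs <;> norm_num

theorem Pr_mono {p : ℝ} (hp0 : 0 ≤ p) (hp1 : p ≤ 1) {Q : Finset V} {A B : Finset V → Prop}
    (h : ∀ ω, ω ⊆ Q → A ω → B ω) : Pr p Q A ≤ Pr p Q B := by
  classical
  unfold Pr
  apply E_mono hp0 hp1
  intro ω hω
  by_cases hA : A ω
  · simp [hA, h ω hω hA]
  · simp only [hA, if_false]
    split_ifs <;> norm_num

theorem Pr_congr {p : ℝ} {Q : Finset V} {A B : Finset V → Prop}
    (h : ∀ ω, ω ⊆ Q → (A ω ↔ B ω)) : Pr p Q A = Pr p Q B := by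
  classical
  unfold Pr
  apply E_congr
  intro ω hω
  simp only [h ω hω]

theorem Pr_true (p : ℝ) (Q : Finset V) : Pr p Q (fun _ => True) = 1 := by
  unfold Pr; simp [E_const]

theorem Pr_false (p : ℝ) (Q : Finset V) : Pr p Q (fun _ => False) = 0 := by
  unfold Pr; simp [E_const]

theorem Pr_le_one {p : ℝ} (hp0 : 0 ≤ p) (hp1 : p ≤ 1) (Q : Finset V) (A : Finset V → Prop) :
    Pr p Q A ≤ 1 := by
  rw [← Pr_true p Q]
  exact Pr_mono hp0 hp1 (fun _ _ _ => trivial)

theorem Pr_not (p : ℝ) (Q : Finset V) (A : Finset V → Prop) :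
    Pr p Q (fun ω => ¬ A ω) = 1 - Pr p Q A := by
  classical
  have : Pr p Q (fun ω => ¬ A ω) + Pr p Q A = 1 := by
    unfold Pr
    rw [← E_add]
    refine Eq.trans (E_congr (g := fun _ => (1:ℝ)) ?_) (E_const p Q 1)
    intro ω _
    by_cases h : A ω <;> simp [h]
  linarith

theorem Pr_or_le {p : ℝ} (hp0 : 0 ≤ p) (hp1 : p ≤ 1) (Q : Finset V) (A B : Finset V → Prop) :
    Pr p Q (fun ω => A ω ∨ B ω) ≤ Pr p Q A + Pr p Q B := by
  classical
  unfold Pr
  rw [← E_add]
  apply E_mono hp0 hp1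
  intro ω _
  by_cases h : A ω <;> by_cases h' : B ω <;> simp [h, h']

/-- Union bound over a finite index set. -/
theorem Pr_exists_le {p : ℝ} (hp0 : 0 ≤ p) (hp1 : p ≤ 1) {ι : Type*} (Q : Finset V) (s : Finset ι)
    (A : ι → Finset V → Prop) :
    Pr p Q (fun ω => ∃ i ∈ s, A i ω) ≤ ∑ i ∈ s, Pr p Q (A i) := by
  classical
  unfold Pr
  rw [← E_sum]
  apply E_mono hp0 hp1
  intro ω _
  by_cases h : ∃ i ∈ s, A i ω
  · obtain ⟨i, hi, hA⟩ := h
    rw [if_pos ⟨i, hi, hA⟩]
    calc (1 : ℝ) = if A i ω then 1 else 0 := by simp [hA]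
      _ ≤ ∑ i ∈ s, if A i ω then 1 else 0 := by
        apply Finset.single_le_sum (f := fun i => if A i ω then (1 : ℝ) else 0) _ hi
        intro j _
        split_ifs <;> norm_num
  · rw [if_neg h]
    apply Finset.sum_nonneg
    intro j _
    split_ifs <;> norm_num

theorem Pr_restrict (p : ℝ) {Q1 Q : Finset V} (h : Q1 ⊆ Q) (A : Finset V → Prop)
    (hf : ∀ ω, ω ⊆ Q → (A ω ↔ A (ω ∩ Q1))) : Pr p Q A = Pr p Q1 A := by
  classical
  unfold Pr
  apply E_restrict p h
  intro ω hω
  simp only [hf ω hω]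

/-- Independence of events living on disjoint sets. -/
theorem Pr_and_of_disjoint (p : ℝ) {Q1 Q2 Q : Finset V} (h1 : Q1 ⊆ Q) (h2 : Q2 ⊆ Q)
    (hd : Disjoint Q1 Q2) (A B : Finset V → Prop) :
    Pr p Q (fun ω => A (ω ∩ Q1) ∧ B (ω ∩ Q2)) = Pr p Q1 A * Pr p Q2 B := by
  classical
  rw [Pr_restrict p (Finset.union_subset h1 h2)]
  · unfold Pr
    rw [E_fubini p hd, ← E_mul_const]
    apply E_congr; intro ω1 hω1
    rw [← E_const_mul]
    apply E_congr; intro ω2 hω2
    have e1 : (ω1 ∪ ω2) ∩ Q1 = ω1 := by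
      rw [Finset.union_inter_distrib_right, Finset.inter_eq_left.2 hω1,
        Finset.disjoint_iff_inter_eq_empty.1 (Finset.disjoint_of_subset_left hω2 hd.symm)]
      simp
    have e2 : (ω1 ∪ ω2) ∩ Q2 = ω2 := by
      rw [Finset.union_inter_distrib_right, Finset.inter_eq_left.2 hω2,
        Finset.disjoint_iff_inter_eq_empty.1 (Finset.disjoint_of_subset_left hω1 hd)]
      simp
    simp only [e1, e2]
    by_cases hA : A ω1 <;> by_cases hB : B ω2 <;> simp [hA, hB]
  · intro ω _
    rw [Finset.inter_assoc, Finset.inter_assoc, Finset.inter_eq_right.2 Finset.subset_union_left,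
      Finset.inter_eq_right.2 Finset.subset_union_right]

/-- Monotonicity in `p` of expectations of increasing functions. -/
theorem E_mono_p {p q : ℝ} (hp0 : 0 ≤ p) (hpq : p ≤ q) (hq1 : q ≤ 1) (Q : Finset V)
    (f : Finset V → ℝ) (hf : ∀ a b, a ⊆ b → b ⊆ Q → f a ≤ f b) : E p Q f ≤ E q Q f := by
  induction Q using Finset.induction_on generalizing f with
  | empty => rw [E_empty, E_empty]
  | insert v Q hv ih =>
    rw [E_insert p hv, E_insert q hv]
    have h1 := ih f (fun a b hab hb => hf a b hab (hb.trans (Finset.subset_insert _ _)))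
    have h2 := ih (fun ω => f (insert v ω))
      (fun a b hab hb => hf _ _ (Finset.insert_subset_insert _ hab) (Finset.insert_subset_insert _ hb))
    have h3 : E q Q f ≤ E q Q (fun ω => f (insert v ω)) := by
      apply E_mono (hp0.trans hpq) hq1
      intro ω hω
      exact hf _ _ (Finset.subset_insert _ _) (Finset.insert_subset_insert _ hω)
    nlinarith [mul_le_mul_of_nonneg_left h1 (by linarith : (0:ℝ) ≤ 1 - p),
      mul_le_mul_of_nonneg_left h2 hp0,
      mul_nonneg (by linarith : (0:ℝ) ≤ q - p) (by linarith : (0:ℝ) ≤ E q Q (fun ω => f (insert v ω)) - E q Q f)]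

theorem Pr_mono_p {p q : ℝ} (hp0 : 0 ≤ p) (hpq : p ≤ q) (hq1 : q ≤ 1) (Q : Finset V)
    (A : Finset V → Prop) (hA : ∀ a b, a ⊆ b → b ⊆ Q → A a → A b) : Pr p Q A ≤ Pr q Q A := by
  classical
  unfold Pr
  apply E_mono_p hp0 hpq hq1
  intro a b hab hb
  by_cases h : A a
  · simp [h, hA a b hab hb h]
  · simp only [h, if_false]; split_ifs <;> norm_num

/-- Harris (FKG) inequality for increasing functions. -/
theorem harris {p : ℝ} (hp0 : 0 ≤ p) (hp1 : p ≤ 1) (Q : Finset V)
    (f g : Finset V → ℝ) (hf : ∀ a b, a ⊆ b → b ⊆ Q → f a ≤ f b)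
    (hg : ∀ a b, a ⊆ b → b ⊆ Q → g a ≤ g b) :
    E p Q f * E p Q g ≤ E p Q (fun ω => f ω * g ω) := by
  induction Q using Finset.induction_on generalizing f g with
  | empty => rw [E_empty, E_empty, E_empty]
  | insert v Q hv ih =>
    rw [E_insert p hv, E_insert p hv, E_insert p hv]
    have h1 := ih f g (fun a b hab hb => hf a b hab (hb.trans (Finset.subset_insert _ _)))
      (fun a b hab hb => hg a b hab (hb.trans (Finset.subset_insert _ _)))
    have h2 := ih (fun ω => f (insert v ω)) (fun ω => g (insert v ω))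
      (fun a b hab hb => hf _ _ (Finset.insert_subset_insert _ hab) (Finset.insert_subset_insert _ hb))
      (fun a b hab hb => hg _ _ (Finset.insert_subset_insert _ hab) (Finset.insert_subset_insert _ hb))
    have h3 : E p Q f ≤ E p Q (fun ω => f (insert v ω)) := by
      apply E_mono hp0 hp1
      intro ω hω
      exact hf _ _ (Finset.subset_insert _ _) (Finset.insert_subset_insert _ hω)
    have h4 : E p Q g ≤ E p Q (fun ω => g (insert v ω)) := by
      apply E_mono hp0 hp1
      intro ω hω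
      exact hg _ _ (Finset.subset_insert _ _) (Finset.insert_subset_insert _ hω)
    generalize E p Q f = a at *
    generalize E p Q g = b at *
    generalize E p Q (fun ω => f (insert v ω)) = a' at *
    generalize E p Q (fun ω => g (insert v ω)) = b' at *
    generalize E p Q (fun ω => f ω * g ω) = c at *
    generalize E p Q (fun ω => f (insert v ω) * g (insert v ω)) = c' at *
    have hq : 0 ≤ 1 - p := by linarith
    nlinarith [mul_le_mul_of_nonneg_left h1 hq, mul_le_mul_of_nonneg_left h2 hp0,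
      mul_nonneg (mul_nonneg hp0 hq) (mul_nonneg (sub_nonneg.2 h3) (sub_nonneg.2 h4))]

theorem harris_Pr {p : ℝ} (hp0 : 0 ≤ p) (hp1 : p ≤ 1) (Q : Finset V)
    (A B : Finset V → Prop) (hA : ∀ a b, a ⊆ b → b ⊆ Q → A a → A b)
    (hB : ∀ a b, a ⊆ b → b ⊆ Q → B a → B b) :
    Pr p Q A * Pr p Q B ≤ Pr p Q (fun ω => A ω ∧ B ω) := by
  classical
  unfold Pr
  refine (harris hp0 hp1 Q _ _ ?_ ?_).trans (le_of_eq ?_)
  · intro a b hab hb
    by_cases h : A a
    · simp [h, hA a b hab hb h]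
    · simp only [h, if_false]; split_ifs <;> norm_num
  · intro a b hab hb
    by_cases h : B a
    · simp [h, hB a b hab hb h]
    · simp only [h, if_false]; split_ifs <;> norm_num
  · apply E_congr
    intro ω _
    by_cases h : A ω <;> by_cases h' : B ω <;> simp [h, h']

end Expectation

end Pool.Agent.Perc
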