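import Mathlib
import Pool.Agent.Perc.Base

/-! Percolation library, part 2: site percolation on `ℤ^d`, the infinite product measure,
and the bridge with finite-volume probabilities. -/

namespace Pool.Agent.Perc

open MeasureTheory ProbabilityTheory

instance (d : ℕ) (p : unitInterval) : IsProbabilityMeasure (mu d p) := by
  unfold mu; infer_instance

theorem mem_box {d : ℕ} {c x : Site d} {r : ℕ} : x ∈ box c r ↔ ∀ i, |x i - c i| ≤ r := by
  unfold box
  rw [Finset.mem_Icc]
  constructor
  · rintro ⟨h1, h2⟩ i
    have := h1 i; have := h2 i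
    simp only at *
    rw [abs_le]; constructor <;> linarith
  · intro h
    constructor
    · intro i; have := (abs_le.1 (h i)).1; simp only; linarith
    · intro i; have := (abs_le.1 (h i)).2; simp only; linarith

/-- `x` is `n`-macroscopic: it is joined, inside the box of radius `n` around `x`,
to a site at sup-distance exactly `n` from `x`. -/
def Mac {d : ℕ} (n : ℕ) (ω : Set (Site d)) (x : Site d) : Prop :=
  ∃ y, (∃ i, |y i - x i| = n) ∧ Jn Nbr (ω ∩ ↑(box x n)) x y

/-- The local event used in the finite-size criterion. -/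
def Good {d : ℕ} (n : ℕ) (c : Site d) (ω : Set (Site d)) : Prop :=
  (∃ x ∈ box c n, Mac n ω x) ∧
    ∀ x ∈ box c (4 * n), ∀ y ∈ box c (4 * n), Mac n ω x → Mac n ω y →
      Jn Nbr (ω ∩ ↑(box c (12 * n))) x y

theorem Nbr.symm {d : ℕ} {x y : Site d} (h : Nbr x y) : Nbr y x := by
  unfold Nbr at *
  rw [← h]
  apply Finset.sum_congr rfl
  intro i _
  exact abs_sub_comm _ _

theorem Nbr_symm {d : ℕ} (x y : Site d) (h : Nbr x y) : Nbr y x := h.symm

theorem Nbr.abs_le {d : ℕ} {x y : Site d} (h : Nbr x y) (i : Fin d) : |x i - y i| ≤ 1 := by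
  unfold Nbr at h
  rw [← h]
  exact Finset.single_le_sum (f := fun i => |x i - y i|) (fun j _ => abs_nonneg _)
    (Finset.mem_univ i)

/-- Translation invariance of the neighbour relation. -/
theorem Nbr_add {d : ℕ} {x y : Site d} (c : Site d) : Nbr (x + c) (y + c) ↔ Nbr x y := by
  unfold Nbr; simp

open Classical in
/-- The finite trace of a configuration. -/
noncomputable def trace {d : ℕ} (Q : Finset (Site d)) (ω : Set (Site d)) : Finset (Site d) :=
  Q.filter (fun x => x ∈ ω)

theorem mem_trace {d : ℕ} {Q : Finset (Site d)} {ω : Set (Site d)} {x : Site d} :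
    x ∈ trace Q ω ↔ x ∈ Q ∧ x ∈ ω := by
  unfold trace; simp

theorem coe_trace {d : ℕ} (Q : Finset (Site d)) (ω : Set (Site d)) :
    (↑(trace Q ω) : Set (Site d)) = ω ∩ ↑Q := by
  ext x; simp [mem_trace, and_comm]

theorem trace_subset {d : ℕ} (Q : Finset (Site d)) (ω : Set (Site d)) : trace Q ω ⊆ Q := by
  intro x hx; exact (mem_trace.1 hx).1

theorem coe_toNNReal_eq (q : unitInterval) :
    (↑(unitInterval.toNNReal q) : ENNReal) = ENNReal.ofReal (q : ℝ) := by
  rw [ENNReal.ofReal, ENNReal.coe_inj]
  ext
  simp [q.2.1]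

theorem site_prob_true (p : unitInterval) (P : Prop) (hP : P) :
    ((unitInterval.toNNReal p • Measure.dirac True +
        unitInterval.toNNReal (unitInterval.symm p) • Measure.dirac False) : Measure Prop)
          {b : Prop | b ↔ P} = ENNReal.ofReal (p : ℝ) := by
  rw [Measure.add_apply]
  simp only [hP, iff_true]
  rw [Measure.smul_apply, Measure.smul_apply, Measure.dirac_apply' _ MeasurableSet.of_discrete,
    Measure.dirac_apply' _ MeasurableSet.of_discrete]
  simp [Set.indicator, ENNReal.smul_def, coe_toNNReal_eq]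

theorem site_prob_false (p : unitInterval) (P : Prop) (hP : ¬ P) :
    ((unitInterval.toNNReal p • Measure.dirac True +
        unitInterval.toNNReal (unitInterval.symm p) • Measure.dirac False) : Measure Prop)
          {b : Prop | b ↔ P} = ENNReal.ofReal (1 - (p : ℝ)) := by
  rw [Measure.add_apply]
  simp only [hP, iff_false]
  rw [Measure.smul_apply, Measure.smul_apply, Measure.dirac_apply' _ MeasurableSet.of_discrete,
    Measure.dirac_apply' _ MeasurableSet.of_discrete]
  simp [Set.indicator, ENNReal.smul_def, coe_toNNReal_eq]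

theorem mu_trace_eq {d : ℕ} (p : unitInterval) (Q S : Finset (Site d)) (hS : S ⊆ Q) :
    mu d p {ω | trace Q ω = S} =
      ENNReal.ofReal ((p : ℝ) ^ S.card * (1 - (p : ℝ)) ^ (Q \ S).card) := by
  classical
  have h1 : (fun P : Site d → Prop => {i | P i}) ⁻¹' {ω : Set (Site d) | trace Q ω = S} =
      Set.pi (↑Q : Set (Site d)) (fun i => {b : Prop | b ↔ i ∈ S}) := by
    ext P
    simp only [Set.mem_preimage, Set.mem_ofPred_eq, Set.mem_pi, Finset.mem_coe]
    constructor
    · intro h i hi
      rw [← h, mem_trace]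
      simp [hi]
    · intro h
      ext i
      rw [mem_trace]
      constructor
      · rintro ⟨hi, hP⟩
        exact (h i hi).1 hP
      · intro hi
        exact ⟨hS hi, (h i (hS hi)).2 hi⟩
  unfold mu
  rw [setBernoulli_apply', h1, Measure.infinitePi_pi]
  · have h2 : ∀ i ∈ Q, ((unitInterval.toNNReal p • Measure.dirac (i ∈ (Set.univ : Set (Site d))) +
        unitInterval.toNNReal (unitInterval.symm p) • Measure.dirac False) : Measure Prop)
          {b : Prop | b ↔ i ∈ S} =
        if i ∈ S then ENNReal.ofReal (p : ℝ) else ENNReal.ofReal (1 - (p : ℝ)) := by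
      intro i _
      have e : (i ∈ (Set.univ : Set (Site d))) = True := by simp
      rw [e]
      split_ifs with hi
      · exact site_prob_true p _ hi
      · exact site_prob_false p _ hi
    rw [Finset.prod_congr rfl h2, Finset.prod_ite, Finset.prod_const, Finset.prod_const]
    have e1 : Q.filter (fun i => i ∈ S) = S := by
      ext x; simp only [Finset.mem_filter]; exact ⟨fun h => h.2, fun h => ⟨hS h, h⟩⟩
    have e2 : Q.filter (fun i => i ∉ S) = Q \ S := by
      ext x; simp only [Finset.mem_filter, Finset.mem_sdiff]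
    rw [e1, e2, ENNReal.ofReal_mul (by have := p.2.1; positivity),
      ENNReal.ofReal_pow p.2.1, ENNReal.ofReal_pow (by linarith [p.2.2])]
  · intro i _
    exact MeasurableSet.of_discrete

theorem measurableSet_trace_eq {d : ℕ} (Q S : Finset (Site d)) :
    MeasurableSet {ω : Set (Site d) | trace Q ω = S} := by
  classical
  have : {ω : Set (Site d) | trace Q ω = S} =
      ⋂ x : Site d, {ω : Set (Site d) | (x ∈ Q ∧ x ∈ ω) ↔ x ∈ S} := by
    ext ω
    simp only [Set.mem_ofPred_eq, Set.mem_iInter]
    constructor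
    · intro h x; rw [← h, mem_trace]
    · intro h; ext x; rw [mem_trace]; exact h x
  rw [this]
  apply MeasurableSet.iInter
  intro x
  by_cases hx : x ∈ Q <;> by_cases hx' : x ∈ S
  · simp only [hx, hx', true_and, iff_true]
    exact measurableSet_setOfPred.2 (measurable_set_mem x)
  · simp only [hx, hx', true_and, iff_false]
    exact measurableSet_setOfPred.2 (measurable_set_notMem x)
  · simp [hx, hx']
  · simp [hx, hx']

theorem setOf_trace_eq_iUnion {d : ℕ} (Q : Finset (Site d)) (A : Finset (Site d) → Prop)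
    [DecidablePred A] :
    {ω : Set (Site d) | A (trace Q ω)} =
      ⋃ S ∈ (Q.powerset.filter A), {ω : Set (Site d) | trace Q ω = S} := by
  ext ω
  simp only [Set.mem_ofPred_eq, Set.mem_iUnion, Finset.mem_filter, Finset.mem_powerset]
  constructor
  · intro h
    exact ⟨trace Q ω, ⟨trace_subset Q ω, h⟩, rfl⟩
  · rintro ⟨S, ⟨_, h⟩, e⟩
    rw [e]; exact h

theorem measurableSet_trace {d : ℕ} (Q : Finset (Site d)) (A : Finset (Site d) → Prop) :
    MeasurableSet {ω : Set (Site d) | A (trace Q ω)} := by
  classical
  rw [setOf_trace_eq_iUnion]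
  exact Finset.measurableSet_biUnion _ (fun S _ => measurableSet_trace_eq Q S)

/-- Bridge: probabilities of local events are finite-volume probabilities. -/
theorem mu_trace {d : ℕ} (p : unitInterval) (Q : Finset (Site d)) (A : Finset (Site d) → Prop) :
    mu d p {ω | A (trace Q ω)} = ENNReal.ofReal (Pr (p : ℝ) Q A) := by
  classical
  rw [setOf_trace_eq_iUnion, measure_biUnion_finset]
  · unfold Pr E
    rw [← Finset.sum_filter_add_sum_filter_not Q.powerset A]
    have hz : ∑ x ∈ Q.powerset.filter (fun x => ¬ A x),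
        (p : ℝ) ^ x.card * (1 - (p : ℝ)) ^ (Q \ x).card * (if A x then (1:ℝ) else 0) = 0 := by
      apply Finset.sum_eq_zero
      intro x hx
      rw [if_neg (Finset.mem_filter.1 hx).2, mul_zero]
    rw [hz, add_zero, ENNReal.ofReal_sum_of_nonneg]
    · apply Finset.sum_congr rfl
      intro S hS
      obtain ⟨h1, h2⟩ := Finset.mem_filter.1 hS
      rw [mu_trace_eq p Q S (Finset.mem_powerset.1 h1)]
      simp only [if_pos h2, mul_one]
    · intro S _
      have h0 := p.2.1
      have h1 : (0:ℝ) ≤ 1 - (p:ℝ) := by linarith [p.2.2]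
      simp only
      split_ifs <;> positivity
  · intro S _ T _ hST
    rw [Function.onFun, Set.disjoint_left]
    intro ω h1 h2
    exact hST (h1.symm.trans h2)
  · intro S _
    exact measurableSet_trace_eq Q S

theorem mu_real_trace {d : ℕ} (p : unitInterval) (Q : Finset (Site d))
    (A : Finset (Site d) → Prop) :
    (mu d p).real {ω | A (trace Q ω)} = Pr (p : ℝ) Q A := by
  rw [measureReal_def, mu_trace, ENNReal.toReal_ofReal (Pr_nonneg p.2.1 p.2.2 Q A)]

end Pool.Agent.Perc
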