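import Mathlib
import Pool.Agent.Perc.Base
import Pool.Agent.Perc.Lattice

/-! Percolation library, part 3: finite-volume description of the percolation probability,
monotonicity, translation invariance, continuity in the parameter. -/

namespace Pool.Agent.Perc

open MeasureTheory ProbabilityTheory Filter Topology

/-- The origin is joined to sup-distance `n` by `ω`. -/
def Reach {d : ℕ} (n : ℕ) (ω : Finset (Site d)) : Prop :=
  ∃ y : Site d, (∃ i, |y i| = (n : ℤ)) ∧ Jn Nbr (↑ω : Set (Site d)) 0 y

theorem box_mono {d : ℕ} {c : Site d} {m n : ℕ} (h : m ≤ n) : box c m ⊆ box c n := by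
  intro x hx
  rw [mem_box] at *
  intro i
  exact (hx i).trans (by exact_mod_cast h)

theorem self_mem_box {d : ℕ} (c : Site d) (n : ℕ) : c ∈ box c n := by
  rw [mem_box]; intro i; simp

theorem mem_box_zero {d : ℕ} {x : Site d} {r : ℕ} : x ∈ box 0 r ↔ ∀ i, |x i| ≤ r := by
  rw [mem_box]; simp

/-- A point joined to `0` is joined inside the box, or the box boundary is reached. -/
theorem Jn.exit {d : ℕ} {ω : Set (Site d)} {y : Site d} (n : ℕ) (h : Jn Nbr ω 0 y) :
    Jn Nbr (ω ∩ ↑(box (0 : Site d) n)) 0 y ∨
      ∃ z : Site d, (∃ i, |z i| = (n : ℤ)) ∧ Jn Nbr (ω ∩ ↑(box (0 : Site d) n)) 0 z := by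
  refine Jn.induct (P := fun y => Jn Nbr (ω ∩ ↑(box (0 : Site d) n)) 0 y ∨
      ∃ z : Site d, (∃ i, |z i| = (n : ℤ)) ∧ Jn Nbr (ω ∩ ↑(box (0 : Site d) n)) 0 z) h ?_ ?_
  · left
    exact Jn.refl ⟨h.mem_left, self_mem_box 0 n⟩
  · intro a b _ ha hab hb
    rcases ha with ha | ha
    · by_cases hbb : b ∈ box (0 : Site d) n
      · left; exact ha.step hab ⟨hb, hbb⟩
      · right
        rw [mem_box_zero] at hbb
        push Not at hbb
        obtain ⟨i, hi⟩ := hbb
        refine ⟨a, ⟨i, ?_⟩, ha⟩
        have h1 := (mem_box_zero.1 (Finset.mem_coe.1 ha.mem_right.2)) i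
        have h2 := hab.abs_le i
        have h3 : |b i| ≤ |a i| + |a i - b i| := by
          have := abs_sub_abs_le_abs_sub (b i) (a i)
          rw [abs_sub_comm] at this
          linarith
        omega
    · right; exact ha

theorem infinite_iff_reach {d : ℕ} (ω : Set (Site d)) :
    (cluster ω 0).Infinite ↔ ∀ n : ℕ, Reach n (trace (box 0 n) ω) := by
  constructor
  · intro h n
    by_contra hn
    apply h
    apply Set.Finite.subset (Finset.finite_toSet (box (0 : Site d) n))
    intro y hy
    rcases Jn.exit n hy with h1 | ⟨z, hz, h1⟩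
    · exact h1.mem_right.2
    · exfalso
      apply hn
      refine ⟨z, hz, ?_⟩
      rw [coe_trace]; exact h1
  · intro h hfin
    obtain ⟨m, hm⟩ : ∃ m : ℕ, ∀ y ∈ cluster ω 0, y ∈ box (0 : Site d) m := by
      have hb : (⋃ y ∈ cluster ω 0, Set.range (fun i => (|y i|).toNat)).Finite :=
        Set.Finite.biUnion hfin (fun y _ => Set.finite_range _)
      obtain ⟨m, hm⟩ := hb.bddAbove
      refine ⟨m, fun y hy => ?_⟩
      rw [mem_box_zero]
      intro i
      have : (|y i|).toNat ≤ m := hm (Set.mem_biUnion hy ⟨i, rfl⟩)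
      omega
    obtain ⟨y, ⟨i, hi⟩, hy⟩ := h (m + 1)
    rw [coe_trace] at hy
    have h1 : Jn Nbr ω 0 y := hy.mono Set.inter_subset_left
    have h2 := mem_box_zero.1 (hm y h1) i
    push_cast at hi
    omega

/-- Finite-volume one-arm probability. -/
noncomputable def arm (d n : ℕ) (p : ℝ) : ℝ := Pr p (box (0 : Site d) n) (Reach n)

theorem Reach.mono {d n : ℕ} {a b : Finset (Site d)} (h : a ⊆ b) (hr : Reach n a) : Reach n b := by
  obtain ⟨y, hy, hj⟩ := hr
  exact ⟨y, hy, hj.mono (by exact_mod_cast h)⟩

theorem reach_antitone {d : ℕ} {ω : Set (Site d)} {m n : ℕ} (h : m ≤ n)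
    (hr : Reach n (trace (box 0 n) ω)) : Reach m (trace (box 0 m) ω) := by
  obtain ⟨y, ⟨i, hi⟩, hj⟩ := hr
  rw [coe_trace] at hj
  rcases Jn.exit m (hj.mono Set.inter_subset_left) with h1 | ⟨z, hz, h1⟩
  · have h2 := mem_box_zero.1 (Finset.mem_coe.1 h1.mem_right.2) i
    have : m = n := by omega
    subst this
    exact ⟨y, ⟨i, hi⟩, by rw [coe_trace]; exact h1⟩
  · exact ⟨z, hz, by rw [coe_trace]; exact h1⟩

theorem theta_eq_iInf (d : ℕ) (p : unitInterval) :
    theta d p = ⨅ n : ℕ, ENNReal.ofReal (arm d n p) := by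
  have h1 : {ω : Set (Site d) | (cluster ω 0).Infinite} =
      ⋂ n : ℕ, {ω : Set (Site d) | Reach n (trace (box 0 n) ω)} := by
    ext ω
    simp only [Set.mem_ofPred_eq, Set.mem_iInter]
    exact infinite_iff_reach ω
  unfold theta
  rw [h1, Antitone.measure_iInter]
  · congr 1
    ext n
    rw [mu_trace p (box 0 n) (Reach n)]
    rfl
  · intro m n h ω hω
    exact reach_antitone h hω
  · intro n
    exact (measurableSet_trace (box 0 n) (Reach n)).nullMeasurableSet
  · exact ⟨0, measure_ne_top _ _⟩

theorem theta_le_arm (d n : ℕ) (p : unitInterval) :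
    theta d p ≤ ENNReal.ofReal (arm d n p) := by
  rw [theta_eq_iInf]
  exact iInf_le _ n

theorem arm_mono {d n : ℕ} {p q : ℝ} (h0 : 0 ≤ p) (h : p ≤ q) (h1 : q ≤ 1) :
    arm d n p ≤ arm d n q := by
  unfold arm
  exact Pr_mono_p h0 h h1 _ _ (fun a b hab _ ha => ha.mono hab)

theorem theta_mono {d : ℕ} {p q : unitInterval} (h : p ≤ q) : theta d p ≤ theta d q := by
  rw [theta_eq_iInf, theta_eq_iInf]
  apply iInf_mono
  intro n
  exact ENNReal.ofReal_le_ofReal (arm_mono p.2.1 h q.2.2)

theorem theta_zero (d : ℕ) : theta d 0 = 0 := by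
  have := theta_le_arm d 0 0
  have h2 : arm d 0 ((0 : unitInterval) : ℝ) = 0 := by
    unfold arm Pr E
    apply Finset.sum_eq_zero
    intro ω hω
    by_cases h : ω = ∅
    · subst h
      have : ¬ Reach 0 (∅ : Finset (Site d)) := by
        rintro ⟨y, _, hj⟩
        simpa using hj.mem_left
      simp [this]
    · have : ω.card ≠ 0 := by rwa [Finset.card_ne_zero, Finset.nonempty_iff_ne_empty]
      simp [this]
  rw [h2] at this
  simpa using this

theorem theta_eq_zero_of_lt_pc {d : ℕ} {p : unitInterval} (h : p < pc d) : theta d p = 0 := by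
  unfold pc at h
  obtain ⟨q, hq, hpq⟩ := lt_sSup_iff.1 h
  exact le_antisymm ((theta_mono hpq.le).trans (le_of_eq hq)) (zero_le)

theorem theta_ne_zero_of_pc_lt {d : ℕ} {p : unitInterval} (h : pc d < p) : theta d p ≠ 0 := by
  intro h0
  have : p ≤ pc d := le_sSup h0
  exact absurd h (not_lt.2 this)

theorem pc_le_of_theta_ne_zero {d : ℕ} {p : unitInterval} (h : theta d p ≠ 0) : pc d ≤ p := by
  by_contra hlt
  exact h (theta_eq_zero_of_lt_pc (not_le.1 hlt))

theorem le_pc_of_theta_eq_zero {d : ℕ} {p : unitInterval} (h : theta d p = 0) : p ≤ pc d :=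
  le_sSup h

/-- Continuity in the parameter of finite-volume expectations. -/
theorem continuous_E {V : Type*} [DecidableEq V] (Q : Finset V) (f : Finset V → ℝ) :
    Continuous (fun p : ℝ => E p Q f) := by
  unfold E
  apply continuous_finsetSum
  intro ω _
  fun_prop

theorem continuous_Pr {V : Type*} [DecidableEq V] (Q : Finset V) (A : Finset V → Prop) :
    Continuous (fun p : ℝ => Pr p Q A) := continuous_E Q _

/-- Translation invariance of the product measure. -/
theorem mu_shift {d : ℕ} (p : unitInterval) (c : Site d) (A : Set (Set (Site d))) :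
    mu d p {ω | {x | x + c ∈ ω} ∈ A} = mu d p A := by
  unfold mu
  rw [setBernoulli_apply', setBernoulli_apply']
  set B : Measure Prop := unitInterval.toNNReal p • Measure.dirac True +
        unitInterval.toNNReal (unitInterval.symm p) • Measure.dirac False with hB
  have e0 : (fun i : Site d => unitInterval.toNNReal p • Measure.dirac (i ∈ (Set.univ : Set (Site d))) +
        unitInterval.toNNReal (unitInterval.symm p) • Measure.dirac False) = fun _ => B := by
    funext i
    have e : (i ∈ (Set.univ : Set (Site d))) = True := by simp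
    rw [e]
  simp only [e0]
  have : IsProbabilityMeasure B := by
    constructor
    rw [hB]
    simp [ENNReal.smul_def, coe_toNNReal_eq]
    rw [← ENNReal.ofReal_add p.2.1 (by linarith [p.2.2])]
    simp
  have key := Measure.infinitePi_map_piCongrLeft (μ := fun _ : Site d => B) (Equiv.subRight c)
  conv_rhs => rw [← key]
  rw [MeasurableEquiv.map_apply]
  congr 1
  ext P
  simp only [Set.mem_preimage, Set.mem_ofPred_eq]
  have : {x | (MeasurableEquiv.piCongrLeft (fun _ : Site d => Prop) (Equiv.subRight c)) P x} =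
      {x | P (x + c)} := by
    ext x
    simp only [Set.mem_ofPred_eq]
    rw [MeasurableEquiv.coe_piCongrLeft, Equiv.piCongrLeft_apply]
    simp
  rw [this]

section Map
variable {V W : Type*} [DecidableEq V] [DecidableEq W]

/-- Transport of finite-volume expectations under an injective relabelling of the sites. -/
theorem E_map (p : ℝ) (e : V ↪ W) (Q : Finset V) (f : Finset W → ℝ) :
    E p (Q.map e) f = E p Q (fun ω => f (ω.map e)) := by
  induction Q using Finset.induction_on generalizing f with
  | empty => simp [E_empty]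
  | insert v Q hv ih =>
    have hv' : e v ∉ Q.map e := by
      simpa using hv
    rw [Finset.map_insert, E_insert p hv', E_insert p hv, ih, ih]
    simp only [Finset.map_insert]

theorem Pr_map (p : ℝ) (e : V ↪ W) (Q : Finset V) (A : Finset W → Prop) :
    Pr p (Q.map e) A = Pr p Q (fun ω => A (ω.map e)) := by
  classical
  unfold Pr
  rw [E_map]

omit [DecidableEq V] [DecidableEq W] in
/-- Connections are transported by relabellings preserving adjacency. -/
theorem Jn_map_iff {adj : V → V → Prop} {adj' : W → W → Prop} (e : V ≃ W)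
    (he : ∀ x y, adj' (e x) (e y) ↔ adj x y) (ω : Set V) (x y : V) :
    Jn adj' (e '' ω) (e x) (e y) ↔ Jn adj ω x y := by
  constructor
  · intro h
    have h1 : Jn adj ω (e.symm (e x)) (e.symm (e y)) := by
      refine Jn.induct (P := fun z => Jn adj ω (e.symm (e x)) (e.symm z)) h ?_ ?_
      · apply Jn.refl
        have := h.mem_left
        simpa using this
      · intro a b _ ha hab hb
        refine ha.step ?_ ?_
        · rw [← he]; simpa using hab
        · simpa using hb
    simpa using h1
  · intro h
    refine Jn.induct (P := fun z => Jn adj' (e '' ω) (e x) (e z)) h ?_ ?_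
    · apply Jn.refl
      simpa using h.mem_left
    · intro a b _ ha hab hb
      exact ha.step ((he _ _).2 hab) (by simpa using hb)

end Map

/-- The box around `c` is the translate of the box around `0`. -/
theorem box_translate {d : ℕ} (c : Site d) (r : ℕ) :
    box c r = (box (0 : Site d) r).map (Equiv.addRight c).toEmbedding := by
  ext x
  rw [mem_box, Finset.mem_map_equiv, mem_box_zero]
  simp [sub_eq_add_neg]

end Pool.Agent.Perc
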