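import Mathlib
import Pool.Agent.Perc.Base

/-! # Clusters, unions of clusters, boundaries, contact sites (finite volume) -/

open Finset Classical

namespace Pool.Agent.Perc

section Clusters
variable {V : Type*} [DecidableEq V] (adj : V → V → Prop)

/-- the open cluster of `x` in the finite configuration `ω` (empty if `x ∉ ω`). -/
noncomputable def clu (ω : Finset V) (x : V) : Finset V :=
  ω.filter (fun y => Jn adj (ω : Set V) x y)

/-- the union of the open clusters of `ω` that meet the source set `A`. -/
noncomputable def cluA (A ω : Finset V) : Finset V :=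
  ω.filter (fun y => ∃ a ∈ A, Jn adj (ω : Set V) a y)

/-- the family of the open clusters of `ω` that meet the source set `A`. -/
noncomputable def KK (A ω : Finset V) : Finset (Finset V) :=
  (cluA adj A ω).image (clu adj ω)

/-- outer vertex boundary of `S` inside `Q`. -/
noncomputable def bdry (Q S : Finset V) : Finset V :=
  Q.filter (fun y => y ∉ S ∧ ∃ x ∈ S, adj x y)

/-- `z` is a contact site: `z` is closed and adjacent to two points of `cluA A ω`
lying in different open clusters. -/
def Contact (A ω : Finset V) (z : V) : Prop :=
  z ∉ ω ∧ ∃ x ∈ cluA adj A ω, ∃ x' ∈ cluA adj A ω, adj x z ∧ adj x' z ∧ ¬ Jn adj (ω : Set V) x x'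

end Clusters

end Pool.Agent.Perc
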