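import Mathlib
import Pool.Agent.Perc.Base
import Pool.Agent.Perc.Clusters

/-! # Inhomogeneous finite volume expectations and the exploration formula -/

open Finset

namespace Pool.Agent.Perc

section EQ
variable {V : Type*} [DecidableEq V]

/-- weight of `ω ⊆ Q` under site percolation with density field `q` -/
noncomputable def wq (q : V → ℝ) (Q ω : Finset V) : ℝ := (∏ x ∈ ω, q x) * ∏ x ∈ Q \ ω, (1 - q x)

/-- expectation for the density field `q` -/
noncomputable def EQ (q : V → ℝ) (Q : Finset V) (f : Finset V → ℝ) : ℝ :=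
  ∑ ω ∈ Q.powerset, wq q Q ω * f ω

theorem E_eq_EQ (p : ℝ) (Q : Finset V) (f : Finset V → ℝ) : E p Q f = EQ (fun _ => p) Q f := by
  unfold E EQ wq
  simp

theorem EQ_empty (q : V → ℝ) (f : Finset V → ℝ) : EQ q ∅ f = f ∅ := by
  simp [EQ, wq]

theorem EQ_insert (q : V → ℝ) {Q : Finset V} {v : V} (hv : v ∉ Q) (f : Finset V → ℝ) :
    EQ q (insert v Q) f = (1 - q v) * EQ q Q f + q v * EQ q Q (fun ω => f (insert v ω)) := by
  unfold EQ wq
  rw [Finset.sum_powerset_insert hv, Finset.mul_sum, Finset.mul_sum]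
  congr 1
  · apply Finset.sum_congr rfl
    intro ω hω
    have hω' := Finset.mem_powerset.1 hω
    have h1 : v ∉ ω := fun h => hv (hω' h)
    have h2 : (insert v Q \ ω) = insert v (Q \ ω) := by
      rw [Finset.insert_sdiff_of_notMem _ h1]
    have h3 : v ∉ Q \ ω := fun h => hv (Finset.mem_sdiff.1 h).1
    rw [h2, Finset.prod_insert h3]
    ring
  · apply Finset.sum_congr rfl
    intro ω hω
    have hω' := Finset.mem_powerset.1 hω
    have h1 : v ∉ ω := fun h => hv (hω' h)
    have h2 : (insert v Q \ insert v ω) = Q \ ω := by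
      ext a
      simp only [Finset.mem_sdiff, Finset.mem_insert]
      constructor
      · rintro ⟨h | h, h'⟩
        · exact absurd (Or.inl h) h'
        · exact ⟨h, fun h2 => h' (Or.inr h2)⟩
      · rintro ⟨h, h'⟩
        refine ⟨Or.inr h, ?_⟩
        rintro (h2 | h2)
        · exact hv (h2 ▸ h)
        · exact h' h2
    rw [h2, Finset.prod_insert h1]
    ring

theorem EQ_congr {q : V → ℝ} {Q : Finset V} {f g : Finset V → ℝ} (h : ∀ ω, ω ⊆ Q → f ω = g ω) :
    EQ q Q f = EQ q Q g := by
  unfold EQ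
  apply Finset.sum_congr rfl
  intro ω hω
  rw [h ω (Finset.mem_powerset.1 hω)]

theorem EQ_const (q : V → ℝ) (Q : Finset V) (c : ℝ) : EQ q Q (fun _ => c) = c := by
  induction Q using Finset.induction_on with
  | empty => exact EQ_empty q _
  | insert v Q hv ih => rw [EQ_insert q hv, ih]; ring

theorem EQ_const_mul (q : V → ℝ) (Q : Finset V) (c : ℝ) (f : Finset V → ℝ) :
    EQ q Q (fun ω => c * f ω) = c * EQ q Q f := by
  unfold EQ
  rw [Finset.mul_sum]
  apply Finset.sum_congr rfl
  intro ω _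
  ring

theorem wq_nonneg {q : V → ℝ} (hq : ∀ x, 0 ≤ q x ∧ q x ≤ 1) (Q ω : Finset V) :
    0 ≤ wq q Q ω := by
  unfold wq
  refine mul_nonneg (Finset.prod_nonneg fun x _ => (hq x).1)
    (Finset.prod_nonneg fun x _ => by linarith [(hq x).2])

theorem EQ_mono {q : V → ℝ} (hq : ∀ x, 0 ≤ q x ∧ q x ≤ 1) {Q : Finset V} {f g : Finset V → ℝ}
    (h : ∀ ω, ω ⊆ Q → f ω ≤ g ω) : EQ q Q f ≤ EQ q Q g := by
  unfold EQ
  apply Finset.sum_le_sum
  intro ω hω
  exact mul_le_mul_of_nonneg_left (h ω (Finset.mem_powerset.1 hω)) (wq_nonneg hq Q ω)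

/-- pinning: probability that all of `S` is open and all of `S'` is closed, the rest being free. -/
theorem EQ_pin (q : V → ℝ) {Q S S' : Finset V} (hS : S ⊆ Q) (hS' : S' ⊆ Q) (hd : Disjoint S S')
    (g : Finset V → ℝ) :
    EQ q Q (fun ω => if S ⊆ ω ∧ Disjoint S' ω then g (ω \ S) else 0)
      = (∏ x ∈ S, q x) * (∏ x ∈ S', (1 - q x)) * EQ q (Q \ (S ∪ S')) g := by
  unfold EQ
  rw [Finset.mul_sum]
  simp only [mul_ite, mul_zero]
  rw [← Finset.sum_filter]
  symm
  refine Finset.sum_bij' (fun R _ => R ∪ S) (fun ω _ => ω \ S) ?_ ?_ ?_ ?_ ?_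
  · intro R hR
    simp only [mem_powerset, mem_filter] at hR ⊢
    refine ⟨Finset.union_subset (hR.trans Finset.sdiff_subset) hS, Finset.subset_union_right, ?_⟩
    rw [Finset.disjoint_union_right]
    refine ⟨?_, hd.symm⟩
    rw [Finset.disjoint_left]
    intro x hx hxR
    exact (Finset.mem_sdiff.1 (hR hxR)).2 (Finset.mem_union_right _ hx)
  · intro ω hω
    simp only [mem_powerset, mem_filter] at hω ⊢
    intro x hx
    rw [Finset.mem_sdiff] at hx ⊢
    refine ⟨hω.1 hx.1, fun h => ?_⟩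
    rcases Finset.mem_union.1 h with h | h
    · exact hx.2 h
    · exact (Finset.disjoint_left.1 hω.2.2 h) hx.1
  · intro R hR
    simp only [mem_powerset] at hR
    ext x
    simp only [mem_sdiff, mem_union]
    constructor
    · rintro ⟨h1 | h1, h2⟩
      · exact h1
      · exact absurd h1 h2
    · intro h
      exact ⟨Or.inl h, fun h2 => (Finset.mem_sdiff.1 (hR h)).2 (Finset.mem_union_left _ h2)⟩
  · intro ω hω
    simp only [mem_filter] at hω
    exact Finset.sdiff_union_of_subset hω.2.1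
  · intro R hR
    simp only [mem_powerset] at hR
    have hRS : Disjoint R S := by
      rw [Finset.disjoint_left]
      intro x hx h2
      exact (Finset.mem_sdiff.1 (hR hx)).2 (Finset.mem_union_left _ h2)
    have h1 : (R ∪ S) \ S = R := by
      rw [Finset.union_sdiff_right, Finset.sdiff_eq_self_of_disjoint hRS]
    have h2 : Q \ (R ∪ S) = ((Q \ (S ∪ S')) \ R) ∪ S' := by
      ext x
      simp only [mem_sdiff, mem_union]
      constructor
      · rintro ⟨h1, h2⟩
        by_cases h3 : x ∈ S'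
        · exact Or.inr h3
        · left
          tauto
      · rintro (⟨⟨h1, h2⟩, h3⟩ | h1)
        · tauto
        · refine ⟨hS' h1, ?_⟩
          rintro (h3 | h3)
          · exact (Finset.mem_sdiff.1 (hR h3)).2 (Finset.mem_union_right _ h1)
          · exact (Finset.disjoint_left.1 hd h3) h1
    have h3 : Disjoint ((Q \ (S ∪ S')) \ R) S' := by
      rw [Finset.disjoint_left]
      intro x hx h
      exact (Finset.mem_sdiff.1 (Finset.mem_sdiff.1 hx).1).2 (Finset.mem_union_right _ h)
    simp only [wq]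
    rw [h1, h2, Finset.prod_union h3, Finset.prod_union hRS]
    ring

end EQ

section Explore
variable {V : Type*} [DecidableEq V] {adj : V → V → Prop}

theorem mem_cluA {A ω : Finset V} {y : V} :
    y ∈ cluA adj A ω ↔ ∃ a ∈ A, Jn adj (ω : Set V) a y := by
  classical
  unfold cluA
  rw [mem_filter]
  constructor
  · exact fun h => h.2
  · rintro ⟨a, ha, h⟩
    exact ⟨h.mem_right, a, ha, h⟩

theorem mem_clu {ω : Finset V} {x y : V} :
    y ∈ clu adj ω x ↔ Jn adj (ω : Set V) x y := by
  classical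
  unfold clu
  rw [mem_filter]
  exact ⟨fun h => h.2, fun h => ⟨h.mem_right, h⟩⟩

theorem clu_eq_cluA (ω : Finset V) (x : V) : clu adj ω x = cluA adj {x} ω := by
  ext y
  rw [mem_clu, mem_cluA]
  simp

theorem cluA_subset (A ω : Finset V) : cluA adj A ω ⊆ ω := by
  classical
  exact Finset.filter_subset _ _

theorem clu_subset (ω : Finset V) (x : V) : clu adj ω x ⊆ ω := by
  classical
  exact Finset.filter_subset _ _

theorem mem_bdry {Q S : Finset V} {y : V} :
    y ∈ bdry adj Q S ↔ y ∈ Q ∧ y ∉ S ∧ ∃ x ∈ S, adj x y := by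
  classical
  unfold bdry
  rw [mem_filter]

/-- the closed vertices revealed by the exploration of the clusters of `A`. -/
noncomputable def rev (adj : V → V → Prop) (Q A S : Finset V) : Finset V := bdry adj Q S ∪ (A \ S)

/-- `S` is a possible value of `cluA A`. -/
def Adm (adj : V → V → Prop) (A S : Finset V) : Prop :=
  ∀ x ∈ S, ∃ a ∈ A, Jn adj (S : Set V) a x

theorem adm_cluA (A ω : Finset V) : Adm adj A (cluA adj A ω) := by
  intro x hx
  obtain ⟨a, ha, h⟩ := mem_cluA.1 hx
  refine ⟨a, ha, ?_⟩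
  have key : Jn adj ((cluA adj A ω : Finset V) : Set V) a x := by
    have h0 : a ∈ cluA adj A ω := mem_cluA.2 ⟨a, ha, Jn.refl h.mem_left⟩
    refine h.induct (P := fun y => Jn adj ((cluA adj A ω : Finset V) : Set V) a y) (Jn.refl h0) ?_
    intro b c hb hPb hbc hc
    refine hPb.step hbc ?_
    exact Finset.mem_coe.2 (mem_cluA.2 ⟨a, ha, hb.step hbc hc⟩)
  exact key

theorem cluA_eq_iff {Q A S : Finset V} (hS : Adm adj A S) {ω : Finset V}
    (hω : ω ⊆ Q) : cluA adj A ω = S ↔ S ⊆ ω ∧ Disjoint (rev adj Q A S) ω := by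
  constructor
  · rintro rfl
    refine ⟨cluA_subset A ω, ?_⟩
    rw [Finset.disjoint_left]
    intro y hy hyω
    rcases Finset.mem_union.1 hy with h | h
    · obtain ⟨_, h2, x, hx, hxy⟩ := mem_bdry.1 h
      apply h2
      obtain ⟨a, ha, h⟩ := mem_cluA.1 hx
      exact mem_cluA.2 ⟨a, ha, h.step hxy hyω⟩
    · obtain ⟨h1, h2⟩ := Finset.mem_sdiff.1 h
      exact h2 (mem_cluA.2 ⟨y, h1, Jn.refl hyω⟩)
  · rintro ⟨h1, h2⟩
    apply Finset.Subset.antisymm
    · intro x hx
      obtain ⟨a, ha, h⟩ := mem_cluA.1 hx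
      have haS : a ∈ S := by
        by_contra hcon
        exact Finset.disjoint_left.1 h2 (Finset.mem_union_right _ (Finset.mem_sdiff.2 ⟨ha, hcon⟩))
          h.mem_left
      refine h.induct (P := fun y => y ∈ S) haS ?_
      intro b c _ hb hbc hc
      by_contra hcon
      exact Finset.disjoint_left.1 h2 (Finset.mem_union_left _ (mem_bdry.2 ⟨hω hc, hcon, b, hb, hbc⟩)) hc
    · intro x hx
      obtain ⟨a, ha, h⟩ := hS x hx
      exact mem_cluA.2 ⟨a, ha, h.mono (Finset.coe_subset.2 h1)⟩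

open Classical in
/-- exploration formula: the law of `cluA A ω`, the rest of the configuration being fresh. -/
theorem EQ_explore (q : V → ℝ) {Q A S : Finset V} (hA : A ⊆ Q) (hSQ : S ⊆ Q) (hS : Adm adj A S)
    (g : Finset V → ℝ) :
    EQ q Q (fun ω => if cluA adj A ω = S then g (ω \ S) else 0)
      = (∏ x ∈ S, q x) * (∏ x ∈ rev adj Q A S, (1 - q x)) * EQ q (Q \ (S ∪ rev adj Q A S)) g := by
  rw [← EQ_pin q hSQ ?_ ?_ g]
  · apply EQ_congr
    intro ω hω
    simp only [cluA_eq_iff hS hω]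
  · unfold rev
    refine Finset.union_subset ?_ (Finset.sdiff_subset.trans hA)
    intro y hy; exact (mem_bdry.1 hy).1
  · unfold rev
    rw [Finset.disjoint_left]
    intro y hy h
    rcases Finset.mem_union.1 h with h | h
    · exact (mem_bdry.1 h).2.1 hy
    · exact (Finset.mem_sdiff.1 h).2 hy

/-- the law of `cluA A`. -/
theorem EQ_cluA (q : V → ℝ) {Q A : Finset V} (hA : A ⊆ Q) (F : Finset V → ℝ) :
    EQ q Q (fun ω => F (cluA adj A ω)) =
      open Classical in ∑ S ∈ Q.powerset.filter (Adm adj A),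
        F S * ((∏ x ∈ S, q x) * (∏ x ∈ rev adj Q A S, (1 - q x))) := by
  classical
  have h1 : ∀ S ∈ Q.powerset.filter (Adm adj A),
      F S * ((∏ x ∈ S, q x) * (∏ x ∈ rev adj Q A S, (1 - q x)))
      = EQ q Q (fun ω => if cluA adj A ω = S then F S else 0) := by
    intro S hS
    simp only [mem_filter, mem_powerset] at hS
    have := EQ_explore (adj := adj) q hA hS.1 hS.2 (fun _ => F S)
    rw [EQ_const] at this
    rw [this]; ring
  rw [Finset.sum_congr rfl h1]
  unfold EQ
  rw [Finset.sum_comm]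
  apply Finset.sum_congr rfl
  intro ω hω
  rw [← Finset.mul_sum]
  congr 1
  rw [Finset.sum_ite_eq, if_pos]
  rw [mem_filter, mem_powerset]
  exact ⟨(cluA_subset A ω).trans (Finset.mem_powerset.1 hω), adm_cluA A ω⟩

end Explore

end Pool.Agent.Perc
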