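import Mathlib
import Pool.Agent.Perc.Theta
import Pool.Agent.Perc.EQ

/-! # Polynomial lower bound for connections at `p_c` (module M4). -/

set_option autoImplicit false

open Finset

namespace Pool.Agent.Perc

variable {d : ℕ}

/-- Probability that `a` and `b` are joined inside `Q`. -/
noncomputable def conn (p : ℝ) (Q : Finset (Site d)) (a b : Site d) : ℝ :=
  Pr p Q (fun ω => Jn Nbr (↑ω : Set (Site d)) a b)

theorem conn_nonneg {p : ℝ} (hp0 : 0 ≤ p) (hp1 : p ≤ 1) (Q : Finset (Site d)) (a b : Site d) :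
    0 ≤ conn p Q a b := Pr_nonneg hp0 hp1 _ _

theorem conn_le_one {p : ℝ} (hp0 : 0 ≤ p) (hp1 : p ≤ 1) (Q : Finset (Site d)) (a b : Site d) :
    conn p Q a b ≤ 1 := Pr_le_one hp0 hp1 _ _

/-- Increasing events: enlarging the domain increases the probability. -/
theorem Pr_mono_domain {V : Type*} [DecidableEq V] {p : ℝ} (hp0 : 0 ≤ p) (hp1 : p ≤ 1)
    {Q Q' : Finset V} (h : Q ⊆ Q')
    (A : Finset V → Prop) (hA : ∀ a b, a ⊆ b → b ⊆ Q' → A a → A b) : Pr p Q A ≤ Pr p Q' A := by
  have h1 : Pr p Q' (fun ω => A (ω ∩ Q)) = Pr p Q (fun ω => A (ω ∩ Q)) := by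
    apply Pr_restrict p h
    intro ω _
    rw [Finset.inter_assoc, Finset.inter_self]
  have h2 : Pr p Q (fun ω => A (ω ∩ Q)) = Pr p Q A := by
    apply Pr_congr
    intro ω hω
    rw [Finset.inter_eq_left.2 hω]
  rw [← h2, ← h1]
  apply Pr_mono hp0 hp1
  intro ω hω hA'
  exact hA _ _ Finset.inter_subset_left hω hA'

theorem conn_mono {p : ℝ} (hp0 : 0 ≤ p) (hp1 : p ≤ 1) {Q Q' : Finset (Site d)} (h : Q ⊆ Q')
    (a b : Site d) : conn p Q a b ≤ conn p Q' a b := by
  apply Pr_mono_domain hp0 hp1 h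
  intro u v huv _ hj
  exact hj.mono (by exact_mod_cast huv)

theorem conn_symm (p : ℝ) (Q : Finset (Site d)) (a b : Site d) :
    conn p Q a b = conn p Q b a := by
  apply Pr_congr
  intro ω _
  exact ⟨fun h => h.symm Nbr_symm, fun h => h.symm Nbr_symm⟩

theorem conn_mul_le {p : ℝ} (hp0 : 0 ≤ p) (hp1 : p ≤ 1) (Q : Finset (Site d)) (a b c : Site d) :
    conn p Q a b * conn p Q b c ≤ conn p Q a c := by
  refine (harris_Pr hp0 hp1 Q _ _ ?_ ?_).trans ?_
  · intro u v huv _ hj
    exact hj.mono (by exact_mod_cast huv)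
  · intro u v huv _ hj
    exact hj.mono (by exact_mod_cast huv)
  · apply Pr_mono hp0 hp1
    rintro ω _ ⟨h1, h2⟩
    exact h1.trans h2

/-- Invariance of connection probabilities under automorphisms of the lattice. -/
theorem conn_map (p : ℝ) (e : Site d ≃ Site d) (he : ∀ x y, Nbr (e x) (e y) ↔ Nbr x y)
    (Q : Finset (Site d)) (a b : Site d) :
    conn p (Q.map e.toEmbedding) (e a) (e b) = conn p Q a b := by
  unfold conn
  rw [Pr_map]
  apply Pr_congr
  intro ω _
  rw [Finset.coe_map]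
  exact Jn_map_iff e he (↑ω) a b

/-! ### The exit functional -/

/-- Sites just outside the box. -/
noncomputable def shell (d n : ℕ) : Finset (Site d) := box 0 (n + 1) \ box 0 n

/-- Expected number of exit sites of the cluster of the origin in `box 0 n`. -/
noncomputable def psi (d n : ℕ) (p : ℝ) : ℝ :=
  ∑ y ∈ shell d n, Pr p (box (0 : Site d) n)
    (fun ω => ∃ x, Nbr x y ∧ Jn Nbr (↑ω : Set (Site d)) 0 x)

theorem psi_nonneg {p : ℝ} (hp0 : 0 ≤ p) (hp1 : p ≤ 1) (n : ℕ) : 0 ≤ psi d n p :=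
  Finset.sum_nonneg fun _ _ => Pr_nonneg hp0 hp1 _ _

/-- `y` is joined to sup-distance `m` from `y` inside its box. -/
def ReachFrom (y : Site d) (m : ℕ) (ω : Finset (Site d)) : Prop :=
  ∃ z : Site d, (∃ i, |z i - y i| = (m : ℤ)) ∧ Jn Nbr (↑ω : Set (Site d)) y z

theorem Pr_reachFrom (p : ℝ) (y : Site d) (m : ℕ) :
    Pr p (box y m) (ReachFrom y m) = arm d m p := by
  unfold arm
  rw [box_translate y m, Pr_map]
  apply Pr_congr
  intro ω _
  have he : ∀ x x' : Site d, Nbr ((Equiv.addRight y) x) ((Equiv.addRight y) x') ↔ Nbr x x' := by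
    intro x x'
    exact Nbr_add y
  constructor
  · rintro ⟨z, ⟨i, hi⟩, hj⟩
    refine ⟨z - y, ⟨i, by simpa using hi⟩, ?_⟩
    rw [← Jn_map_iff (Equiv.addRight y) he]
    rw [Finset.coe_map] at hj
    simpa using hj
  · rintro ⟨z, ⟨i, hi⟩, hj⟩
    refine ⟨z + y, ⟨i, by simpa using hi⟩, ?_⟩
    rw [← Jn_map_iff (Equiv.addRight y) he] at hj
    rw [Finset.coe_map]
    simpa using hj

/-- Exit from a box around a general point. -/
theorem Jn.exit_from {ω : Set (Site d)} {y z : Site d} (m : ℕ) (h : Jn Nbr ω y z) :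
    Jn Nbr (ω ∩ ↑(box y m)) y z ∨
      ∃ w : Site d, (∃ i, |w i - y i| = (m : ℤ)) ∧ Jn Nbr (ω ∩ ↑(box y m)) y w := by
  refine Jn.induct (P := fun z => Jn Nbr (ω ∩ ↑(box y m)) y z ∨
      ∃ w : Site d, (∃ i, |w i - y i| = (m : ℤ)) ∧ Jn Nbr (ω ∩ ↑(box y m)) y w) h ?_ ?_
  · left
    exact Jn.refl ⟨h.mem_left, self_mem_box y m⟩
  · intro a b _ ha hab hb
    rcases ha with ha | ha
    · by_cases hbb : b ∈ box y m
      · left; exact ha.step hab ⟨hb, hbb⟩
      · right
        rw [mem_box] at hbb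
        push Not at hbb
        obtain ⟨i, hi⟩ := hbb
        refine ⟨a, ⟨i, ?_⟩, ha⟩
        have h1 := (mem_box.1 (Finset.mem_coe.1 ha.mem_right.2)) i
        have h2 := hab.abs_le i
        have h3 : |b i - y i| ≤ |a i - y i| + |a i - b i| := by
          have h4 := abs_sub_abs_le_abs_sub (b i - y i) (a i - y i)
          have h5 : b i - y i - (a i - y i) = -(a i - b i) := by ring
          rw [h5, abs_neg] at h4
          linarith
        omega
    · right; exact ha

theorem ReachFrom.mono {y : Site d} {m : ℕ} {a b : Finset (Site d)} (h : a ⊆ b)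
    (hr : ReachFrom y m a) : ReachFrom y m b := by
  obtain ⟨z, hz, hj⟩ := hr
  exact ⟨z, hz, hj.mono (by exact_mod_cast h)⟩

theorem reachFrom_iff_inter (y : Site d) (m : ℕ) (ω : Finset (Site d)) :
    ReachFrom y m ω ↔ ReachFrom y m (ω ∩ box y m) := by
  constructor
  · rintro ⟨z, ⟨i, hi⟩, hj⟩
    rcases Jn.exit_from m hj with h1 | ⟨w, hw, h1⟩
    · exact ⟨z, ⟨i, hi⟩, by rw [Finset.coe_inter]; exact h1⟩
    · exact ⟨w, hw, by rw [Finset.coe_inter]; exact h1⟩
  · intro h
    exact h.mono Finset.inter_subset_left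

theorem Pr_reachFrom_le {p : ℝ} (hp0 : 0 ≤ p) (hp1 : p ≤ 1) (y : Site d) (m : ℕ)
    {Q D : Finset (Site d)} (hD : D ⊆ Q) (hQ : box y m ⊆ Q) :
    Pr p D (ReachFrom y m) ≤ arm d m p := by
  calc Pr p D (ReachFrom y m) ≤ Pr p Q (ReachFrom y m) :=
        Pr_mono_domain hp0 hp1 hD _ (fun a b hab _ h => h.mono hab)
    _ = Pr p (box y m) (ReachFrom y m) := by
        apply Pr_restrict p hQ
        intro ω _
        exact reachFrom_iff_inter y m ω
    _ = arm d m p := Pr_reachFrom p y m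

/-- Last-exit decomposition of an open path from the cluster of the origin in `S`. -/
theorem last_exit {ω S : Finset (Site d)} {z : Site d} (h0 : (0 : Site d) ∈ S) (hz : z ∉ S)
    (h : Jn Nbr (↑ω : Set (Site d)) 0 z) :
    ∃ y, y ∉ S ∧ (∃ x ∈ cluA Nbr {0} (ω ∩ S), Nbr x y) ∧
      Jn Nbr (↑(ω \ (cluA Nbr {0} (ω ∩ S) ∪ rev Nbr S {0} (cluA Nbr {0} (ω ∩ S)))) :
        Set (Site d)) y z := by
  set K := cluA Nbr {0} (ω ∩ S) with hK
  have hKS : K ⊆ ω ∩ S := cluA_subset _ _
  have h0K : (0 : Site d) ∈ K := by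
    rw [hK, mem_cluA]
    refine ⟨0, Finset.mem_singleton_self _, Jn.refl ?_⟩
    rw [Finset.coe_inter]
    exact ⟨h.mem_left, h0⟩
  have hclosed : ∀ b c, b ∈ K → Nbr b c → c ∈ ω → c ∈ S → c ∈ K := by
    intro b c hb hbc hc hcS
    rw [hK, mem_cluA] at hb ⊢
    obtain ⟨a, ha, hj⟩ := hb
    refine ⟨a, ha, hj.step hbc ?_⟩
    rw [Finset.coe_inter]
    exact ⟨hc, hcS⟩
  have key : z ∈ K ∨ ∃ y, y ∉ S ∧ (∃ x ∈ K, Nbr x y) ∧
      Jn Nbr (↑(ω \ (K ∪ rev Nbr S {0} K)) : Set (Site d)) y z := by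
    refine Jn.induct (P := fun z => z ∈ K ∨ ∃ y, y ∉ S ∧ (∃ x ∈ K, Nbr x y) ∧
      Jn Nbr (↑(ω \ (K ∪ rev Nbr S {0} K)) : Set (Site d)) y z) h (Or.inl h0K) ?_
    intro b c _ hb hbc hc
    have hc' : c ∈ ω := hc
    by_cases hcK : c ∈ K
    · exact Or.inl hcK
    · right
      have hcfree : c ∈ (↑(ω \ (K ∪ rev Nbr S {0} K)) : Set (Site d)) := by
        rw [Finset.mem_coe, Finset.mem_sdiff]
        refine ⟨hc', fun hcc => ?_⟩
        rcases Finset.mem_union.1 hcc with h1 | h1
        · exact hcK h1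
        · unfold rev at h1
          rcases Finset.mem_union.1 h1 with h2 | h2
          · obtain ⟨h3, _, x, hx, hxc⟩ := mem_bdry.1 h2
            exact hcK (hclosed x c hx hxc hc' h3)
          · rw [Finset.mem_sdiff, Finset.mem_singleton] at h2
            exact hcK (h2.1 ▸ h0K)
      rcases hb with hb | ⟨y, hy, hx, hj⟩
      · refine ⟨c, fun hcS => hcK (hclosed b c hb hbc hc' hcS), ⟨b, hb, hbc⟩, Jn.refl hcfree⟩
      · exact ⟨y, hy, hx, hj.step hbc hcfree⟩
  rcases key with h1 | h1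
  · exact absurd (Finset.mem_inter.1 (hKS h1)).2 hz
  · exact h1

theorem Pr_sum_fiber {V : Type*} [DecidableEq V] (p : ℝ) (S : Finset V)
    (f : Finset V → Finset V) (hf : ∀ ω, ω ⊆ S → f ω ⊆ S) (P : Finset V → Prop) :
    ∑ K ∈ S.powerset, Pr p S (fun ω => f ω = K ∧ P K) = Pr p S (fun ω => P (f ω)) := by
  classical
  unfold Pr
  rw [← E_sum]
  apply E_congr
  intro ω hω
  by_cases hP : P (f ω)
  · rw [if_pos hP, Finset.sum_eq_single (f ω)]
    · simp [hP]
    · intro K _ hK
      rw [if_neg]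
      rintro ⟨h1, _⟩
      exact hK h1.symm
    · intro h
      exact absurd (Finset.mem_powerset.2 (hf ω hω)) h
  · rw [if_neg hP]
    apply Finset.sum_eq_zero
    intro K _
    rw [if_neg]
    rintro ⟨h1, h2⟩
    rw [← h1] at h2
    exact hP h2

/-- One-step recursion for the one-arm probability. -/
theorem arm_le_psi_mul {p : ℝ} (hp0 : 0 ≤ p) (hp1 : p ≤ 1) (n m : ℕ) :
    arm d (m + (n + 1)) p ≤ psi d n p * arm d m p := by
  classical
  set N := m + (n + 1) with hN
  set Q := box (0 : Site d) N with hQ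
  set S := box (0 : Site d) n with hS
  have hSQ : S ⊆ Q := box_mono (by omega)
  have h0S : (0 : Site d) ∈ S := self_mem_box 0 n
  -- event inclusion
  have h1 : arm d N p ≤ Pr p Q (fun ω => ∃ y ∈ shell d n, ∃ K ∈ S.powerset,
      (cluA Nbr {0} (ω ∩ S) = K ∧ (∃ x ∈ K, Nbr x y)) ∧
        ReachFrom y m (ω \ (K ∪ rev Nbr S {0} K))) := by
    unfold arm
    apply Pr_mono hp0 hp1
    rintro ω hω ⟨z, ⟨i, hi⟩, hj⟩
    have hz : z ∉ S := by
      rw [hS, mem_box_zero]
      intro h
      have := h i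
      omega
    obtain ⟨y, hy, ⟨x, hx, hxy⟩, hj'⟩ := last_exit h0S hz hj
    have hxS : x ∈ S := (Finset.mem_inter.1 (cluA_subset _ _ hx)).2
    have hyn : ∀ i, |y i| ≤ (n : ℤ) + 1 := by
      intro i
      have h2 := hxy.abs_le i
      have h3 := (mem_box_zero.1 hxS) i
      have h4 := abs_sub_abs_le_abs_sub (y i) (x i)
      rw [abs_sub_comm] at h4
      linarith
    refine ⟨y, ?_, cluA Nbr {0} (ω ∩ S), ?_, ⟨rfl, x, hx, hxy⟩, ?_⟩
    · unfold shell
      rw [Finset.mem_sdiff]
      refine ⟨?_, hy⟩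
      rw [mem_box_zero]
      intro i
      push_cast
      exact hyn i
    · rw [Finset.mem_powerset]
      exact (cluA_subset _ _).trans Finset.inter_subset_right
    · rcases Jn.exit_from m hj' with h2 | ⟨w, hw, h2⟩
      · refine ⟨z, ⟨i, ?_⟩, h2.mono Set.inter_subset_left⟩
        have h3 := (mem_box.1 (Finset.mem_coe.1 h2.mem_right.2)) i
        have h4 := hyn i
        have h5 := abs_sub_abs_le_abs_sub (z i) (y i)
        have h6 : ((N : ℕ) : ℤ) = m + (n + 1) := by rw [hN]; push_cast; ring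
        omega
      · exact ⟨w, hw, h2.mono Set.inter_subset_left⟩
  refine h1.trans ?_
  refine (Pr_exists_le hp0 hp1 Q (shell d n) _).trans ?_
  unfold psi
  rw [Finset.sum_mul]
  apply Finset.sum_le_sum
  intro y hy
  refine (Pr_exists_le hp0 hp1 Q S.powerset _).trans ?_
  have h2 : Pr p S (fun ω => ∃ x, Nbr x y ∧ Jn Nbr (↑ω : Set (Site d)) 0 x) =
      ∑ K ∈ S.powerset, Pr p S (fun ω => cluA Nbr {0} ω = K ∧ ∃ x ∈ K, Nbr x y) := by
    rw [Pr_sum_fiber p S (fun ω => cluA Nbr {0} ω) (fun ω hω => (cluA_subset _ _).trans hω)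
      (fun K => ∃ x ∈ K, Nbr x y)]
    apply Pr_congr
    intro ω _
    constructor
    · rintro ⟨x, hx, hj⟩
      exact ⟨x, mem_cluA.2 ⟨0, Finset.mem_singleton_self _, hj⟩, hx⟩
    · rintro ⟨x, hx, hxy⟩
      obtain ⟨a, ha, hj⟩ := mem_cluA.1 hx
      rw [Finset.mem_singleton] at ha
      subst ha
      exact ⟨x, hxy, hj⟩
  rw [h2, Finset.sum_mul]
  apply Finset.sum_le_sum
  intro K hK
  rw [Finset.mem_powerset] at hK
  by_cases hadm : Adm Nbr {0} K ∧ ∃ x ∈ K, Nbr x y
  · obtain ⟨hadm, hKy⟩ := hadm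
    set Kb := K ∪ rev Nbr S {0} K with hKb
    have hKbS : Kb ⊆ S := by
      rw [hKb]
      apply Finset.union_subset hK
      unfold rev
      apply Finset.union_subset
      · intro x hx; exact (mem_bdry.1 hx).1
      · intro x hx
        rw [Finset.mem_sdiff, Finset.mem_singleton] at hx
        rw [hx.1]; exact h0S
    have e1 : Pr p Q (fun ω => (cluA Nbr {0} (ω ∩ S) = K ∧ (∃ x ∈ K, Nbr x y)) ∧
        ReachFrom y m (ω \ Kb)) =
        Pr p Kb (fun η => K ⊆ η ∧ Disjoint (rev Nbr S {0} K) η) * Pr p (Q \ Kb) (ReachFrom y m) := by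
      rw [← Pr_and_of_disjoint p (hKbS.trans hSQ) (Finset.sdiff_subset : Q \ Kb ⊆ Q)
        Finset.disjoint_sdiff]
      apply Pr_congr
      intro ω hω
      have e2 : ω ∩ (Q \ Kb) = ω \ Kb := by
        ext x
        simp only [Finset.mem_inter, Finset.mem_sdiff]
        constructor
        · rintro ⟨h3, _, h4⟩; exact ⟨h3, h4⟩
        · rintro ⟨h3, h4⟩; exact ⟨h3, hω h3, h4⟩
      rw [e2]
      have e3 : cluA Nbr {0} (ω ∩ S) = K ↔ K ⊆ ω ∩ Kb ∧ Disjoint (rev Nbr S {0} K) (ω ∩ Kb) := by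
        rw [cluA_eq_iff hadm (Finset.inter_subset_right : ω ∩ S ⊆ S)]
        constructor
        · rintro ⟨h3, h4⟩
          refine ⟨?_, ?_⟩
          · intro x hx
            exact Finset.mem_inter.2 ⟨(Finset.mem_inter.1 (h3 hx)).1, Finset.mem_union_left _ hx⟩
          · rw [Finset.disjoint_left] at h4 ⊢
            intro x hx hx'
            rw [Finset.mem_inter] at hx'
            exact h4 hx (Finset.mem_inter.2 ⟨hx'.1, hKbS hx'.2⟩)
        · rintro ⟨h3, h4⟩
          refine ⟨?_, ?_⟩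
          · intro x hx
            exact Finset.mem_inter.2 ⟨(Finset.mem_inter.1 (h3 hx)).1, hK hx⟩
          · rw [Finset.disjoint_left] at h4 ⊢
            intro x hx hx'
            rw [Finset.mem_inter] at hx'
            exact h4 hx (Finset.mem_inter.2 ⟨hx'.1, Finset.mem_union_right _ hx⟩)
      rw [e3]
      tauto
    have e4 : Pr p Kb (fun η => K ⊆ η ∧ Disjoint (rev Nbr S {0} K) η) =
        Pr p S (fun ω => cluA Nbr {0} ω = K ∧ ∃ x ∈ K, Nbr x y) := by
      rw [← Pr_restrict p hKbS]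
      · apply Pr_congr
        intro ω hω
        rw [cluA_eq_iff hadm hω]
        tauto
      · intro ω _
        constructor
        · rintro ⟨h3, h4⟩
          refine ⟨?_, ?_⟩
          · intro x hx
            exact Finset.mem_inter.2 ⟨h3 hx, Finset.mem_union_left _ hx⟩
          · exact Finset.disjoint_of_subset_right Finset.inter_subset_left h4
        · rintro ⟨h3, h4⟩
          refine ⟨h3.trans Finset.inter_subset_left, ?_⟩
          rw [Finset.disjoint_left] at h4 ⊢
          intro x hx hx'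
          exact h4 hx (Finset.mem_inter.2 ⟨hx', Finset.mem_union_right _ hx⟩)
    rw [e1, e4]
    apply mul_le_mul_of_nonneg_left _ (Pr_nonneg hp0 hp1 _ _)
    apply Pr_reachFrom_le hp0 hp1 y m (Finset.sdiff_subset : Q \ Kb ⊆ Q)
    intro x hx
    rw [hQ, mem_box_zero]
    intro i
    have h3 := (mem_box.1 hx) i
    have hy' : y ∈ box (0 : Site d) (n + 1) := (Finset.mem_sdiff.1 hy).1
    have h4 := (mem_box_zero.1 hy') i
    have h5 := abs_sub_abs_le_abs_sub (x i) (y i)
    rw [hN]
    push_cast at *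
    linarith
  · have e1 : Pr p Q (fun ω => (cluA Nbr {0} (ω ∩ S) = K ∧ (∃ x ∈ K, Nbr x y)) ∧
        ReachFrom y m (ω \ (K ∪ rev Nbr S {0} K))) = 0 := by
      rw [← Pr_false p Q]
      apply Pr_congr
      intro ω _
      constructor
      · rintro ⟨⟨h3, h4⟩, _⟩
        apply hadm
        refine ⟨?_, h4⟩
        rw [← h3]
        exact adm_cluA _ _
      · exact False.elim
    rw [e1]
    exact mul_nonneg (Pr_nonneg hp0 hp1 _ _) (Pr_nonneg hp0 hp1 _ _)

theorem arm_le_psi_pow {p : ℝ} (hp0 : 0 ≤ p) (hp1 : p ≤ 1) (n k : ℕ) :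
    arm d (k * (n + 1)) p ≤ psi d n p ^ k := by
  induction k with
  | zero =>
    rw [pow_zero, zero_mul]
    exact Pr_le_one hp0 hp1 _ _
  | succ k ih =>
    rw [Nat.succ_mul, pow_succ, mul_comm (psi d n p ^ k)]
    exact (arm_le_psi_mul hp0 hp1 n _).trans
      (mul_le_mul_of_nonneg_left ih (psi_nonneg hp0 hp1 n))

/-- If the exit functional of some box is less than one there is no percolation. -/
theorem theta_eq_zero_of_psi_lt_one (p : unitInterval) (n : ℕ) (h : psi d n (p : ℝ) < 1) :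
    theta d p = 0 := by
  have hp0 : (0 : ℝ) ≤ p := p.2.1
  have hp1 : (p : ℝ) ≤ 1 := p.2.2
  have h1 : ∀ k : ℕ, theta d p ≤ ENNReal.ofReal (psi d n (p : ℝ) ^ k) := fun k =>
    (theta_le_arm d (k * (n + 1)) p).trans (ENNReal.ofReal_le_ofReal (arm_le_psi_pow hp0 hp1 n k))
  have h2 : Filter.Tendsto (fun k : ℕ => ENNReal.ofReal (psi d n (p : ℝ) ^ k)) Filter.atTop
      (nhds 0) := by
    rw [← ENNReal.ofReal_zero]
    exact ENNReal.tendsto_ofReal (tendsto_pow_atTop_nhds_zero_of_lt_one (psi_nonneg hp0 hp1 n) h)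
  exact le_antisymm (ge_of_tendsto' h2 h1) (zero_le)

theorem continuous_psi (d n : ℕ) : Continuous (psi d n) := by
  unfold psi
  apply continuous_finsetSum
  intro y _
  exact continuous_Pr _ _

/-- At the critical point the exit functional is at least one. -/
theorem one_le_psi_pc (d n : ℕ) (hpc : pc d < 1) : 1 ≤ psi d n (pc d : ℝ) := by
  by_contra hcon
  push Not at hcon
  have hopen : IsOpen {p : ℝ | psi d n p < 1} := isOpen_lt (continuous_psi d n) continuous_const
  obtain ⟨ε, hε, hball⟩ := Metric.isOpen_iff.1 hopen (pc d : ℝ) hcon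
  have hlt : (pc d : ℝ) < 1 := by exact_mod_cast hpc
  set q : ℝ := min ((pc d : ℝ) + ε / 2) 1 with hq
  have hq1 : q ≤ 1 := min_le_right _ _
  have hq0 : (pc d : ℝ) < q := by
    rw [hq]; apply lt_min <;> linarith
  have hq00 : 0 ≤ q := le_trans (pc d).2.1 hq0.le
  have hmem : q ∈ Metric.ball (pc d : ℝ) ε := by
    rw [Metric.mem_ball, Real.dist_eq, abs_of_pos (by linarith)]
    have : q ≤ (pc d : ℝ) + ε / 2 := min_le_left _ _
    linarith
  have h1 : psi d n q < 1 := hball hmem
  have h2 : theta d (⟨q, hq00, hq1⟩ : unitInterval) = 0 :=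
    theta_eq_zero_of_psi_lt_one ⟨q, hq00, hq1⟩ n h1
  have h3 := le_pc_of_theta_eq_zero h2
  have h4 : q ≤ (pc d : ℝ) := by exact_mod_cast h3
  linarith

/-! ### From the exit functional to long connections -/

theorem card_box' (c : Site d) (m : ℕ) : (box c m).card = (2 * m + 1) ^ d := by
  unfold box
  rw [Pi.card_Icc]
  simp only [Int.card_Icc]
  have : ∀ i : Fin d, (c i + (m : ℤ) + 1 - (c i - (m : ℤ))).toNat = 2 * m + 1 := by
    intro i; omega
  simp [this]

/-- The basic polynomial factor. -/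
noncomputable def dl (d n : ℕ) : ℝ := 1 / ((2 * n + 3 : ℝ) ^ (2 * d))

theorem dl_pos (d n : ℕ) : 0 < dl d n := by unfold dl; positivity

theorem exists_face_conn {p : ℝ} (hp0 : 0 ≤ p) (hp1 : p ≤ 1) (n : ℕ) (hpsi : 1 ≤ psi d n p) :
    ∃ x : Site d, x ∈ box (0 : Site d) n ∧ (∃ i, |x i| = (n : ℤ)) ∧
      dl d n ≤ conn p (box (0 : Site d) n) 0 x := by
  classical
  by_contra hcon
  push Not at hcon
  set F := (box (0 : Site d) n).filter (fun x => ∃ i, |x i| = (n : ℤ)) with hF
  have h1 : psi d n p ≤ ∑ _y ∈ shell d n, ∑ x ∈ F, conn p (box (0 : Site d) n) 0 x := by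
    unfold psi
    apply Finset.sum_le_sum
    intro y hy
    have hs2 : Pr p (box (0 : Site d) n) (fun ω => ∃ x ∈ F, Jn Nbr (↑ω : Set (Site d)) 0 x) ≤
        ∑ x ∈ F, conn p (box (0 : Site d) n) 0 x :=
      Pr_exists_le hp0 hp1 (box (0 : Site d) n) F (fun x ω => Jn Nbr (↑ω : Set (Site d)) 0 x)
    refine le_trans ?_ hs2
    apply Pr_mono hp0 hp1
    rintro ω hω ⟨x, hxy, hj⟩
    refine ⟨x, ?_, hj⟩
    have hxb : x ∈ box (0 : Site d) n := hω hj.mem_right
    rw [hF, Finset.mem_filter]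
    refine ⟨hxb, ?_⟩
    unfold shell at hy
    rw [Finset.mem_sdiff] at hy
    have hy2 := hy.2
    rw [mem_box_zero] at hy2
    push Not at hy2
    obtain ⟨i, hi⟩ := hy2
    refine ⟨i, ?_⟩
    have h2 := hxy.abs_le i
    have h3 := (mem_box_zero.1 hxb) i
    have h4 := abs_sub_abs_le_abs_sub (y i) (x i)
    rw [abs_sub_comm] at h4
    omega
  rw [Finset.sum_const, nsmul_eq_mul] at h1
  have h2 : ((shell d n).card : ℝ) ≤ (2 * n + 3 : ℝ) ^ d := by
    have : (shell d n).card ≤ (2 * (n + 1) + 1) ^ d := by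
      rw [← card_box' (0 : Site d) (n + 1)]
      exact Finset.card_le_card Finset.sdiff_subset
    calc ((shell d n).card : ℝ) ≤ (((2 * (n + 1) + 1) ^ d : ℕ) : ℝ) := by exact_mod_cast this
      _ = (2 * n + 3 : ℝ) ^ d := by push_cast; ring
  have h3 : (F.card : ℝ) ≤ (2 * n + 3 : ℝ) ^ d := by
    have : F.card ≤ (2 * n + 1) ^ d := by
      rw [← card_box' (0 : Site d) n]
      exact Finset.card_le_card (Finset.filter_subset _ _)
    calc (F.card : ℝ) ≤ (((2 * n + 1) ^ d : ℕ) : ℝ) := by exact_mod_cast this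
      _ = (2 * n + 1 : ℝ) ^ d := by push_cast; ring
      _ ≤ (2 * n + 3 : ℝ) ^ d := by
        apply pow_le_pow_left₀ (by positivity); linarith
  have h4 : ∀ x ∈ F, conn p (box (0 : Site d) n) 0 x < dl d n := by
    intro x hx
    rw [hF, Finset.mem_filter] at hx
    exact hcon x hx.1 hx.2
  rcases F.eq_empty_or_nonempty with hFe | hFn
  · rw [hFe] at h1
    simp at h1
    linarith
  have h5 : ∑ x ∈ F, conn p (box (0 : Site d) n) 0 x < (2 * n + 3 : ℝ) ^ d * dl d n := by
    calc ∑ x ∈ F, conn p (box (0 : Site d) n) 0 x < ∑ _x ∈ F, dl d n :=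
          Finset.sum_lt_sum_of_nonempty hFn h4
      _ = F.card * dl d n := by rw [Finset.sum_const, nsmul_eq_mul]
      _ ≤ _ := mul_le_mul_of_nonneg_right h3 (dl_pos d n).le
  have h6 : 0 ≤ ∑ x ∈ F, conn p (box (0 : Site d) n) 0 x :=
    Finset.sum_nonneg fun x _ => conn_nonneg hp0 hp1 _ _ _
  have h7 : (2 * n + 3 : ℝ) ^ d * ((2 * n + 3 : ℝ) ^ d * dl d n) = 1 := by
    unfold dl
    rw [← mul_assoc, ← pow_add, ← two_mul]
    field_simp
  have hpos : (0 : ℝ) < (2 * n + 3 : ℝ) ^ d := by positivity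
  have h8 : ((shell d n).card : ℝ) * ∑ x ∈ F, conn p (box (0 : Site d) n) 0 x < 1 := by
    calc ((shell d n).card : ℝ) * ∑ x ∈ F, conn p (box (0 : Site d) n) 0 x
        ≤ (2 * n + 3 : ℝ) ^ d * ∑ x ∈ F, conn p (box (0 : Site d) n) 0 x :=
          mul_le_mul_of_nonneg_right h2 h6
      _ < (2 * n + 3 : ℝ) ^ d * ((2 * n + 3 : ℝ) ^ d * dl d n) :=
          mul_lt_mul_of_pos_left h5 hpos
      _ = 1 := h7
  linarith

/-! ### Lattice symmetries -/

/-- Reflection of the `i`-th coordinate: `z i ↦ c - z i`. -/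
def reflE (i : Fin d) (c : ℤ) : Site d ≃ Site d where
  toFun z := Function.update z i (c - z i)
  invFun z := Function.update z i (c - z i)
  left_inv z := by simp
  right_inv z := by simp

theorem reflE_apply (i : Fin d) (c : ℤ) (z : Site d) (j : Fin d) :
    reflE i c z j = if j = i then c - z i else z j := by
  simp only [reflE, Equiv.coe_fn_mk, Function.update_apply]

theorem Nbr_reflE (i : Fin d) (c : ℤ) (x y : Site d) :
    Nbr (reflE i c x) (reflE i c y) ↔ Nbr x y := by
  unfold Nbr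
  have : ∀ j, |reflE i c x j - reflE i c y j| = |x j - y j| := by
    intro j
    rw [reflE_apply, reflE_apply]
    split_ifs with h
    · subst h
      rw [abs_sub_comm (x j) (y j)]
      congr 1
      ring
    · rfl
  simp only [this]

/-- Permutation of the coordinates. -/
def permE (σ : Equiv.Perm (Fin d)) : Site d ≃ Site d where
  toFun z := z ∘ σ
  invFun z := z ∘ σ.symm
  left_inv z := by funext i; simp
  right_inv z := by funext i; simp

theorem Nbr_permE (σ : Equiv.Perm (Fin d)) (x y : Site d) :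
    Nbr (permE σ x) (permE σ y) ↔ Nbr x y := by
  unfold Nbr permE
  simp only [Equiv.coe_fn_mk, Function.comp_apply]
  rw [Equiv.sum_comp σ (fun j => |x j - y j|)]

theorem Nbr_addRight (c x y : Site d) :
    Nbr (Equiv.addRight c x) (Equiv.addRight c y) ↔ Nbr x y := Nbr_add c

theorem conn_reflect_even {p : ℝ} (hp0 : 0 ≤ p) (hp1 : p ≤ 1) (n : ℕ) (hpsi : 1 ≤ psi d n p)
    (j : Fin d) : dl d n ^ 2 ≤ conn p (box (0 : Site d) (3 * n)) 0 (Pi.single j (2 * n : ℤ)) := by
  obtain ⟨x0, hx0, ⟨i, hi⟩, hc0⟩ := exists_face_conn hp0 hp1 n hpsi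
  -- make the `i`-th coordinate positive
  obtain ⟨x, hx, hxi, hc⟩ : ∃ x : Site d, x ∈ box (0 : Site d) n ∧ x i = n ∧
      dl d n ≤ conn p (box (0 : Site d) n) 0 x := by
    rcases (abs_eq (by positivity)).1 hi with h | h
    · exact ⟨x0, hx0, h, hc0⟩
    · refine ⟨reflE i 0 x0, ?_, ?_, ?_⟩
      · rw [mem_box_zero] at hx0 ⊢
        intro k
        rw [reflE_apply]
        split_ifs with hk
        · subst hk; simpa using hx0 k
        · exact hx0 k
      · rw [reflE_apply, if_pos rfl, h]; ring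
      · have h1 := conn_map p (reflE i 0) (Nbr_reflE i 0) (box (0 : Site d) n) 0 x0
        have h2 : reflE i 0 (0 : Site d) = 0 := by
          funext k; rw [reflE_apply]; split_ifs <;> simp
        have h3 : (box (0 : Site d) n).map (reflE i 0).toEmbedding = box (0 : Site d) n := by
          ext z
          rw [Finset.mem_map_equiv, mem_box_zero, mem_box_zero]
          constructor
          · intro hz k
            have := hz k
            change |reflE i 0 z k| ≤ _ at this
            rw [reflE_apply] at this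
            split_ifs at this with hk
            · subst hk; simpa using this
            · exact this
          · intro hz k
            change |reflE i 0 z k| ≤ _
            rw [reflE_apply]
            split_ifs with hk
            · subst hk; simpa using hz k
            · exact hz k
        rw [h2, h3] at h1
        rw [h1]; exact hc0
  -- reflect in the hyperplane `z i = n`
  have hr : conn p ((box (0 : Site d) n).map (reflE i (2 * n)).toEmbedding)
      (Pi.single i (2 * n : ℤ)) x = conn p (box (0 : Site d) n) 0 x := by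
    have h1 := conn_map p (reflE i (2 * n)) (Nbr_reflE i (2 * n)) (box (0 : Site d) n) 0 x
    have h2 : reflE i (2 * n) (0 : Site d) = Pi.single i (2 * n : ℤ) := by
      funext k
      rw [reflE_apply, Pi.single_apply]
      split_ifs <;> simp
    have h3 : reflE i (2 * n) x = x := by
      funext k
      rw [reflE_apply]
      split_ifs with hk
      · subst hk; rw [hxi]; ring
      · rfl
    rw [h2, h3] at h1
    exact h1
  have hsub1 : box (0 : Site d) n ⊆ box (0 : Site d) (3 * n) := box_mono (by omega)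
  have hsub2 : (box (0 : Site d) n).map (reflE i (2 * n)).toEmbedding ⊆
      box (0 : Site d) (3 * n) := by
    intro z hz
    rw [Finset.mem_map_equiv, mem_box_zero] at hz
    rw [mem_box_zero]
    intro k
    have := hz k
    change |reflE i (2 * n) z k| ≤ _ at this
    rw [reflE_apply] at this
    push_cast
    split_ifs at this with hk
    · subst hk
      rw [abs_le] at this ⊢
      constructor <;> linarith [this.1, this.2]
    · linarith [this]
  have hmain : dl d n ^ 2 ≤ conn p (box (0 : Site d) (3 * n)) 0 (Pi.single i (2 * n : ℤ)) := by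
    have h1 : dl d n ≤ conn p (box (0 : Site d) (3 * n)) 0 x :=
      hc.trans (conn_mono hp0 hp1 hsub1 _ _)
    have h2 : dl d n ≤ conn p (box (0 : Site d) (3 * n)) x (Pi.single i (2 * n : ℤ)) := by
      rw [conn_symm]
      rw [← hr] at hc
      exact hc.trans (conn_mono hp0 hp1 hsub2 _ _)
    calc dl d n ^ 2 = dl d n * dl d n := by ring
      _ ≤ conn p (box (0 : Site d) (3 * n)) 0 x *
          conn p (box (0 : Site d) (3 * n)) x (Pi.single i (2 * n : ℤ)) :=
        mul_le_mul h1 h2 (dl_pos d n).le (conn_nonneg hp0 hp1 _ _ _)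
      _ ≤ _ := conn_mul_le hp0 hp1 _ _ _ _
  -- permute the coordinates
  have h1 := conn_map p (permE (Equiv.swap i j)) (Nbr_permE _) (box (0 : Site d) (3 * n)) 0
    (Pi.single i (2 * n : ℤ))
  have h2 : permE (Equiv.swap i j) (0 : Site d) = 0 := by
    funext k; simp [permE]
  have h3 : permE (Equiv.swap i j) (Pi.single i (2 * n : ℤ) : Site d) = Pi.single j (2 * n : ℤ) := by
    funext k
    simp only [permE, Equiv.coe_fn_mk, Function.comp_apply, Pi.single_apply]
    have : (Equiv.swap i j k = i) ↔ k = j := by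
      rw [← Equiv.eq_symm_apply]
      simp
    simp only [this]
  have h4 : (box (0 : Site d) (3 * n)).map (permE (Equiv.swap i j)).toEmbedding =
      box (0 : Site d) (3 * n) := by
    ext z
    rw [Finset.mem_map_equiv, mem_box_zero, mem_box_zero]
    constructor
    · intro hz k
      have := hz (Equiv.swap i j k)
      simpa [permE] using this
    · intro hz k
      exact hz _
  rw [h2, h3, h4] at h1
  rw [h1]
  exact hmain

/-! ### Connections in a single direction -/

theorem dl_antitone {m n : ℕ} (h : m ≤ n) : dl d n ≤ dl d m := by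
  unfold dl
  apply one_div_le_one_div_of_le (by positivity)
  apply pow_le_pow_left₀ (by positivity)
  have : (m : ℝ) ≤ n := by exact_mod_cast h
  linarith

theorem dl_le_one (n : ℕ) : dl d n ≤ 1 := by
  unfold dl
  rw [div_le_one (by positivity)]
  apply one_le_pow₀
  have : (0 : ℝ) ≤ n := by positivity
  linarith

/-- Translates of connection probabilities. -/
theorem conn_translate (p : ℝ) (R : ℕ) (a v : Site d) :
    conn p (box a R) a (a + v) = conn p (box (0 : Site d) R) 0 v := by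
  have h := conn_map p (Equiv.addRight a) (Nbr_addRight a) (box (0 : Site d) R) 0 v
  rw [← box_translate] at h
  simp only [Equiv.coe_addRight, zero_add] at h
  rw [add_comm a v]
  exact h

theorem conn_self_ge {p : ℝ} (hp0 : 0 ≤ p) (hp1 : p ≤ 1) (hd : 0 < d) (hpsi : 1 ≤ psi d 0 p)
    {Q : Finset (Site d)} {a : Site d} (ha : a ∈ Q) : dl d 0 ^ 2 ≤ conn p Q a a := by
  have h1 := conn_reflect_even hp0 hp1 0 hpsi ⟨0, hd⟩
  have h2 : (Pi.single (⟨0, hd⟩ : Fin d) (2 * ((0 : ℕ) : ℤ)) : Site d) = 0 := by simp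
  rw [h2, Nat.mul_zero, ← conn_translate p 0 a 0, add_zero] at h1
  refine h1.trans (conn_mono hp0 hp1 ?_ _ _)
  intro z hz
  have : z = a := by
    funext i
    have := (mem_box.1 hz) i
    have h3 : z i - a i = 0 := abs_eq_zero.1 (le_antisymm (by simpa using this) (abs_nonneg _))
    omega
  rw [this]; exact ha

theorem conn_nbr_ge {p : ℝ} (hp0 : 0 ≤ p) (hp1 : p ≤ 1) (hd : 0 < d) (hpsi : 1 ≤ psi d 0 p)
    {Q : Finset (Site d)} {a b : Site d} (ha : a ∈ Q) (hb : b ∈ Q) (hab : Nbr a b) :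
    dl d 0 ^ 4 ≤ conn p Q a b := by
  have h1 : conn p Q a a * conn p Q b b ≤ conn p Q a b := by
    refine (harris_Pr hp0 hp1 Q _ _ ?_ ?_).trans ?_
    · intro u v huv _ hj
      exact hj.mono (by exact_mod_cast huv)
    · intro u v huv _ hj
      exact hj.mono (by exact_mod_cast huv)
    · apply Pr_mono hp0 hp1
      rintro ω _ ⟨h1, h2⟩
      exact Jn.single h1.mem_left hab h2.mem_left
  calc dl d 0 ^ 4 = dl d 0 ^ 2 * dl d 0 ^ 2 := by ring
    _ ≤ conn p Q a a * conn p Q b b :=
      mul_le_mul (conn_self_ge hp0 hp1 hd hpsi ha) (conn_self_ge hp0 hp1 hd hpsi hb)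
        (by positivity) (conn_nonneg hp0 hp1 _ _ _)
    _ ≤ _ := h1

/-- Lower bound for connections along a coordinate axis. -/
theorem conn_axis {p : ℝ} (hp0 : 0 ≤ p) (hp1 : p ≤ 1) (hpsi : ∀ n, 1 ≤ psi d n p)
    (j : Fin d) (t T : ℕ) (ht : t ≤ T) :
    dl d T ^ 2 * dl d 0 ^ 4 ≤ conn p (box (0 : Site d) (2 * T + 1)) 0 (Pi.single j (t : ℤ)) := by
  have hd : 0 < d := lt_of_le_of_lt (Nat.zero_le _) j.2
  set n := t / 2 with hn
  have h1 := conn_reflect_even hp0 hp1 n (hpsi n) j
  have h2 : dl d T ^ 2 ≤ dl d n ^ 2 :=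
    pow_le_pow_left₀ (dl_pos d T).le (dl_antitone (by omega)) 2
  have h3 : dl d T ^ 2 ≤ conn p (box (0 : Site d) (2 * T + 1)) 0 (Pi.single j (2 * n : ℤ)) :=
    (h2.trans h1).trans (conn_mono hp0 hp1 (box_mono (by omega)) _ _)
  rcases Nat.mod_two_eq_zero_or_one t with h | h
  · have e : (t : ℤ) = 2 * n := by omega
    rw [e]
    calc dl d T ^ 2 * dl d 0 ^ 4 ≤ dl d T ^ 2 * 1 := by
          apply mul_le_mul_of_nonneg_left _ (by have := dl_pos d T; positivity)
          exact pow_le_one₀ (dl_pos d 0).le (dl_le_one 0)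
      _ = dl d T ^ 2 := mul_one _
      _ ≤ _ := h3
  · have e : (t : ℤ) = 2 * n + 1 := by omega
    have hmem : ∀ s : ℤ, 0 ≤ s → s ≤ t → (Pi.single j s : Site d) ∈ box (0 : Site d) (2 * T + 1) := by
      intro s hs0 hs1
      rw [mem_box_zero]
      intro k
      rw [Pi.single_apply]
      split_ifs
      · rw [abs_of_nonneg hs0]; push_cast; omega
      · simp; omega
    have h4 : dl d 0 ^ 4 ≤ conn p (box (0 : Site d) (2 * T + 1)) (Pi.single j (2 * n : ℤ))
        (Pi.single j (t : ℤ)) := by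
      apply conn_nbr_ge hp0 hp1 hd (hpsi 0) (hmem _ (by omega) (by omega)) (hmem _ (by omega) le_rfl)
      unfold Nbr
      rw [Finset.sum_eq_single j]
      · simp [e]
      · intro k _ hk
        simp [hk]
      · intro h; exact absurd (Finset.mem_univ _) h
    calc dl d T ^ 2 * dl d 0 ^ 4 ≤
        conn p (box (0 : Site d) (2 * T + 1)) 0 (Pi.single j (2 * n : ℤ)) *
        conn p (box (0 : Site d) (2 * T + 1)) (Pi.single j (2 * n : ℤ)) (Pi.single j (t : ℤ)) :=
          mul_le_mul h3 h4 (by have := dl_pos d 0; positivity) (conn_nonneg hp0 hp1 _ _ _)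
      _ ≤ _ := conn_mul_le hp0 hp1 _ _ _ _

theorem conn_axis_int {p : ℝ} (hp0 : 0 ≤ p) (hp1 : p ≤ 1) (hpsi : ∀ n, 1 ≤ psi d n p)
    (a : Site d) (j : Fin d) (t : ℤ) (T : ℕ) (ht : |t| ≤ T) :
    dl d T ^ 2 * dl d 0 ^ 4 ≤ conn p (box a (3 * T + 1)) a (a + Pi.single j t) := by
  rcases le_total 0 t with h | h
  · obtain ⟨s, rfl⟩ := Int.eq_ofNat_of_zero_le h
    rw [conn_translate]
    have hs : s ≤ T := by
      rw [abs_of_nonneg h] at ht; exact_mod_cast ht
    exact (conn_axis hp0 hp1 hpsi j s T hs).trans (conn_mono hp0 hp1 (box_mono (by omega)) _ _)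
  · obtain ⟨s, hs⟩ := Int.eq_ofNat_of_zero_le (neg_nonneg.2 h)
    have hts : t = -(s : ℤ) := by omega
    have hs' : s ≤ T := by
      rw [abs_of_nonpos h, hs] at ht; exact_mod_cast ht
    set b : Site d := a + Pi.single j t with hb
    have hab : a = b + Pi.single j (s : ℤ) := by
      rw [hb, hts, add_assoc, ← Pi.single_add]
      simp
    have h1 := conn_axis hp0 hp1 hpsi j s T hs'
    rw [← conn_translate p (2 * T + 1) b (Pi.single j (s : ℤ)), ← hab] at h1
    rw [conn_symm]
    refine h1.trans (conn_mono hp0 hp1 ?_ _ _)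
    intro z hz
    rw [mem_box] at hz ⊢
    intro k
    have h2 := hz k
    have h3 : |b k - a k| ≤ T := by
      rw [hb, Pi.add_apply, add_sub_cancel_left, Pi.single_apply]
      split_ifs
      · exact ht
      · simp
    have h4 : z k - a k = (z k - b k) + (b k - a k) := by ring
    rw [h4]
    refine (abs_add_le _ _).trans ?_
    push_cast at h2 ⊢
    linarith

/-- Connections between two points whose coordinates differ by at most `T`. -/
theorem conn_general {p : ℝ} (hp0 : 0 ≤ p) (hp1 : p ≤ 1) (hd : 0 < d)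
    (hpsi : ∀ n, 1 ≤ psi d n p)
    (a b : Site d) (T r : ℕ) (hT : ∀ i, |b i - a i| ≤ T) (ha : a ∈ box (0 : Site d) r)
    (hb : b ∈ box (0 : Site d) r) :
    (dl d T ^ 2 * dl d 0 ^ 4) ^ (d + 1) ≤ conn p (box (0 : Site d) (r + (3 * T + 1))) a b := by
  set Q := box (0 : Site d) (r + (3 * T + 1)) with hQ
  set η := dl d T ^ 2 * dl d 0 ^ 4 with hη
  have hη0 : 0 ≤ η := by
    have h1 := dl_pos d T; have h2 := dl_pos d 0; positivity
  set h : ℕ → Site d := fun k i => if (i : ℕ) < k then b i else a i with hh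
  have hh0 : h 0 = a := by funext i; simp [hh]
  have hhd : h d = b := by funext i; simp [hh]
  have hbox : ∀ k, h k ∈ box (0 : Site d) r := by
    intro k
    rw [mem_box_zero] at ha hb ⊢
    intro i
    simp only [hh]
    split_ifs
    · exact hb i
    · exact ha i
  have hsub : ∀ k, box (h k) (3 * T + 1) ⊆ Q := by
    intro k z hz
    rw [hQ, mem_box_zero]
    intro i
    have h1 := (mem_box.1 hz) i
    have h2 := (mem_box_zero.1 (hbox k)) i
    have h3 : z i = (z i - h k i) + h k i := by ring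
    rw [h3]
    refine (abs_add_le _ _).trans ?_
    push_cast at h1 ⊢
    linarith
  have key : ∀ k, k ≤ d → η ^ (k + 1) ≤ conn p Q a (h k) := by
    intro k
    induction k with
    | zero =>
      intro _
      rw [hh0, zero_add, pow_one]
      have h1 : a ∈ Q := by
        have := hsub 0 (self_mem_box (h 0) _)
        rwa [hh0] at this
      refine le_trans ?_ (conn_self_ge hp0 hp1 hd (hpsi 0) h1)
      rw [hη]
      have e1 : dl d T ^ 2 ≤ 1 := pow_le_one₀ (dl_pos d T).le (dl_le_one T)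
      have e2 : dl d 0 ^ 4 ≤ dl d 0 ^ 2 :=
        pow_le_pow_of_le_one (dl_pos d 0).le (dl_le_one 0) (by norm_num)
      calc dl d T ^ 2 * dl d 0 ^ 4 ≤ 1 * dl d 0 ^ 2 :=
            mul_le_mul e1 e2 (by have := dl_pos d 0; positivity) (by norm_num)
        _ = dl d 0 ^ 2 := one_mul _
    | succ k ih =>
      intro hk
      have h1 := ih (by omega)
      set i : Fin d := ⟨k, by omega⟩ with hi
      have h2 : h (k + 1) = h k + Pi.single i (b i - a i) := by
        funext l
        simp only [hh, Pi.add_apply, Pi.single_apply]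
        by_cases hl : l = i
        · subst hl
          have e1 : (i : ℕ) = k := rfl
          simp [e1]
        · have hl' : (l : ℕ) ≠ k := fun hc => hl (Fin.ext hc)
          simp only [hl, if_false, add_zero]
          by_cases h3 : (l : ℕ) < k
          · simp [h3, Nat.lt_succ_of_lt h3]
          · have : ¬ (l : ℕ) < k + 1 := by omega
            simp [h3, this]
      have h3 : η ≤ conn p Q (h k) (h (k + 1)) := by
        rw [h2]
        exact (conn_axis_int hp0 hp1 hpsi (h k) i (b i - a i) T (hT i)).trans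
          (conn_mono hp0 hp1 (hsub k) _ _)
      calc η ^ (k + 1 + 1) = η ^ (k + 1) * η := pow_succ _ _
        _ ≤ conn p Q a (h k) * conn p Q (h k) (h (k + 1)) :=
          mul_le_mul h1 h3 hη0 (conn_nonneg hp0 hp1 _ _ _)
        _ ≤ _ := conn_mul_le hp0 hp1 _ _ _ _
  have := key d le_rfl
  rwa [hhd] at this

/-- Explicit polynomial lower bound at scale `j`. -/
theorem conn_scale {p : ℝ} (hp0 : 0 ≤ p) (hp1 : p ≤ 1) (hd : 0 < d)
    (hpsi : ∀ n, 1 ≤ psi d n p) (j : ℕ) (hj : 1 ≤ j)
    (a b : Site d) (ha : a ∈ box (0 : Site d) (3 * j + 1)) (hb : b ∈ box (0 : Site d) (3 * j + 1)) :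
    1 / ((171 * j : ℝ) ^ (4 * d * (d + 1))) ≤ conn p (box (0 : Site d) (29 * j)) a b := by
  have hT : ∀ i, |b i - a i| ≤ ((6 * j + 2 : ℕ) : ℤ) := by
    intro i
    have h1 := (mem_box_zero.1 ha) i
    have h2 := (mem_box_zero.1 hb) i
    have h3 := abs_sub (b i) (a i)
    push_cast at *
    linarith
  have h1 := conn_general hp0 hp1 hd hpsi a b (6 * j + 2) (3 * j + 1) hT ha hb
  have h2 := h1.trans (conn_mono hp0 hp1 (box_mono (by omega :
    3 * j + 1 + (3 * (6 * j + 2) + 1) ≤ 29 * j)) a b)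
  refine le_trans ?_ h2
  have hj1 : (1 : ℝ) ≤ j := by exact_mod_cast hj
  have e1 : (dl d (6 * j + 2) ^ 2 * dl d 0 ^ 4) =
      1 / (((12 * j + 7 : ℝ) * 9) ^ (4 * d)) := by
    unfold dl
    push_cast
    rw [mul_pow, div_pow, div_pow, one_pow, one_pow, ← pow_mul, ← pow_mul]
    have e2 : (2 * (6 * (j : ℝ) + 2) + 3) = 12 * j + 7 := by ring
    rw [e2]
    have e3 : (2 * (0 : ℝ) + 3) = 3 := by norm_num
    rw [e3]
    have e4 : (9 : ℝ) ^ (4 * d) = 3 ^ (2 * d * 4) := by
      rw [show (9 : ℝ) = 3 ^ 2 by norm_num, ← pow_mul]; congr 1; ring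
    rw [e4]
    have e5 : 2 * d * 2 = 4 * d := by ring
    rw [e5]
    field_simp
  rw [e1, div_pow, one_pow, ← pow_mul]
  apply one_div_le_one_div_of_le (by positivity)
  apply pow_le_pow_left₀ (by positivity)
  nlinarith

theorem E_zero_param {V : Type*} [DecidableEq V] (Q : Finset V) (f : Finset V → ℝ) :
    E 0 Q f = f ∅ := by
  induction Q using Finset.induction_on with
  | empty => exact E_empty 0 f
  | insert v Q hv ih => rw [E_insert 0 hv, ih]; ring

/-- The critical parameter is positive (once it is less than one). -/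
theorem pc_pos (d : ℕ) (hpc : pc d < 1) : 0 < (pc d : ℝ) := by
  rcases lt_or_eq_of_le (pc d).2.1 with h | h
  · exact h
  · exfalso
    have h1 := one_le_psi_pc d 0 hpc
    rw [← h] at h1
    have h2 : psi d 0 0 = 0 := by
      unfold psi
      apply Finset.sum_eq_zero
      intro y _
      unfold Pr
      rw [E_zero_param, if_neg]
      rintro ⟨x, _, hj⟩
      simpa using hj.mem_left
    rw [h2] at h1
    linarith

/-- **Module M4 (CONN).** At the critical point any two points of `box 0 (3j+1)` are joined inside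
`box 0 (c j)` with probability at least `1 / (C j^C)`. -/
theorem conn_pc (d : ℕ) (hd : 0 < d) (hpc : pc d < 1) : ∃ c C : ℕ, 0 < C ∧ ∀ j : ℕ, 1 ≤ j →
    ∀ a ∈ box (0 : Site d) (3 * j + 1), ∀ b ∈ box (0 : Site d) (3 * j + 1),
      1 / ((C : ℝ) * (j : ℝ) ^ C) ≤
        Pr (pc d : ℝ) (box (0 : Site d) (c * j)) (fun ω => Jn Nbr (↑ω : Set (Site d)) a b) := by
  refine ⟨29, 171 ^ (4 * d * (d + 1)), by positivity, ?_⟩
  intro j hj a ha b hb
  have h1 := conn_scale (pc d).2.1 (pc d).2.2 hd (fun n => one_le_psi_pc d n hpc) j hj a b ha hb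
  refine le_trans ?_ h1
  have hj1 : (1 : ℝ) ≤ j := by exact_mod_cast hj
  apply one_div_le_one_div_of_le (by positivity)
  rw [mul_pow]
  push_cast
  apply mul_le_mul_of_nonneg_left _ (by positivity)
  apply pow_le_pow_right₀ hj1
  exact (Nat.lt_pow_self (by norm_num)).le

end Pool.Agent.Perc
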