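import Mathlib
import Pool.Agent.Perc.Base
import Pool.Agent.Perc.Lattice
import Pool.Agent.Perc.Theta

/-! Finite-size criterion: if local block events have high probability and neighbouring good
blocks have joined centres, then the percolation probability is positive. The proof is a
multiscale renormalisation. -/

namespace Pool.Agent.Perc

open MeasureTheory ProbabilityTheory Filter Topology

section Line

/-- Chains along an integer interval. -/
theorem line_joined {P : ℤ → Prop} {J : ℤ → ℤ → Prop} (hrefl : ∀ t, P t → J t t)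
    (htrans : ∀ a b c, J a b → J b c → J a c) (hsymm : ∀ a b, J a b → J b a)
    (hstep : ∀ t, P t → P (t + 1) → J t (t + 1)) (a b : ℤ)
    (hP : ∀ t, (a ≤ t ∧ t ≤ b) ∨ (b ≤ t ∧ t ≤ a) → P t) : J a b := by
  have key : ∀ a b : ℤ, a ≤ b → (∀ t, a ≤ t → t ≤ b → P t) → J a b := by
    intro a b hab
    induction b, hab using Int.leInduction with
    | base => intro h; exact hrefl a (h a le_rfl le_rfl)
    | succ b hab ih =>
      intro h
      have h1 := ih (fun t h1 h2 => h t h1 (by omega))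
      exact htrans _ _ _ h1 (hstep b (h b hab (by omega)) (h (b+1) (by omega) le_rfl))
  rcases le_total a b with h | h
  · exact key a b h (fun t h1 h2 => hP t (Or.inl ⟨h1, h2⟩))
  · exact hsymm _ _ (key b a h (fun t h1 h2 => hP t (Or.inr ⟨h1, h2⟩)))

end Line

/-- Centre of the block with planar index `z` at scale `L`. -/
def emb (d : ℕ) (L : ℕ) (z : ℤ × ℤ) : Site d :=
  fun i => if i.val = 0 then (L : ℤ) * z.1 else if i.val = 1 then (L : ℤ) * z.2 else 0

/-- A system of block events with range `M * L`. -/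
structure BlockSys (d M : ℕ) where
  /-- scale -/
  L : ℕ
  /-- good blocks -/
  good : ℤ × ℤ → Set (Site d) → Prop
  /-- representative vertex of a good block -/
  v : ℤ × ℤ → Set (Site d) → Site d
  loc : ∀ z ω, good z ω ↔ good z (↑(trace (box (emb d L z) (M * L)) ω) : Set (Site d))
  mem : ∀ z ω, good z ω → v z ω ∈ box (emb d L z) (M * L)
  join : ∀ z z' ω, |z.1 - z'.1| + |z.2 - z'.2| ≤ 1 → good z ω → good z' ω →
    Jn Nbr ω (v z ω) (v z' ω)

/-- The window of blocks of the previous scale. -/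
def win (l : ℕ) (z w : ℤ × ℤ) : Prop := |w.1 - l * z.1| ≤ 2 * l ∧ |w.2 - l * z.2| ≤ 2 * l

/-- closeness of planar indices -/
def near (D : ℕ) (b w : ℤ × ℤ) : Prop := |w.1 - b.1| ≤ D ∧ |w.2 - b.2| ≤ D

/-- renormalised good event -/
def good' {d M : ℕ} (S : BlockSys d M) (D l : ℕ) (z : ℤ × ℤ) (ω : Set (Site d)) : Prop :=
  ∃ b : ℤ × ℤ, ∀ w, win l z w → ¬ near D b w → S.good w ω

/-- hub statement -/
def hub {d M : ℕ} (S : BlockSys d M) (D l : ℕ) (z : ℤ × ℤ) (ω : Set (Site d)) (c : ℤ × ℤ) : Prop :=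
  win l z c ∧ S.good c ω ∧
    ∃ b, ∀ w, win l z w → ¬ near D b w → S.good w ω ∧ Jn Nbr ω (S.v w ω) (S.v c ω)

theorem exists_hub {d M : ℕ} (S : BlockSys d M) {D l : ℕ} (hl : D < 2 * l) {z : ℤ × ℤ}
    {ω : Set (Site d)} (h : good' S D l z ω) : ∃ c, hub S D l z ω c := by
  obtain ⟨b, hb⟩ := h
  have hcoord : ∀ a β : ℤ, ∃ x : ℤ, |x - a| ≤ 2 * l ∧ ¬ |x - β| ≤ D := by
    intro a β
    by_cases h : β ≤ a
    · refine ⟨a + 2 * l, ?_, ?_⟩
      · rw [add_sub_cancel_left, abs_of_nonneg (by positivity)]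
      · rw [not_le, lt_abs]; left
        have : (D : ℤ) < 2 * l := by exact_mod_cast hl
        linarith
    · refine ⟨a - 2 * l, ?_, ?_⟩
      · rw [abs_le]; constructor <;> [linarith; (have : (0:ℤ) ≤ 2 * l := by positivity
                                                 linarith)]
      · rw [not_le, lt_abs]; right
        have : (D : ℤ) < 2 * l := by exact_mod_cast hl
        linarith
  obtain ⟨xs, hx1, hx2⟩ := hcoord (l * z.1) b.1
  obtain ⟨ys, hy1, hy2⟩ := hcoord (l * z.2) b.2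
  have hsymm : ∀ a b : ℤ × ℤ, Jn Nbr ω (S.v a ω) (S.v b ω) → Jn Nbr ω (S.v b ω) (S.v a ω) :=
    fun a b h => h.symm Nbr_symm
  -- vertical lines
  have hv : ∀ x y y' : ℤ, |x - l * z.1| ≤ 2 * l → |y - l * z.2| ≤ 2 * l →
      |y' - l * z.2| ≤ 2 * l → ¬ |x - b.1| ≤ D →
      Jn Nbr ω (S.v (x, y) ω) (S.v (x, y') ω) := by
    intro x y y' h1 h2 h3 h4
    refine line_joined (P := fun t => S.good (x, t) ω)
      (J := fun s t => Jn Nbr ω (S.v (x, s) ω) (S.v (x, t) ω)) ?_ ?_ ?_ ?_ y y' ?_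
    · intro t ht; exact S.join _ _ ω (by simp) ht ht
    · intro a b c h1 h2; exact h1.trans h2
    · intro a b h; exact hsymm _ _ h
    · intro t h1 h2; exact S.join _ _ ω (by simp) h1 h2
    · intro t ht
      apply hb
      · refine ⟨h1, ?_⟩
        simp only
        rw [abs_le] at h2 h3 ⊢
        rcases ht with ht | ht <;> constructor <;> linarith [h2.1, h2.2, h3.1, h3.2, ht.1, ht.2]
      · intro hn; exact h4 hn.1
  have hh : ∀ x x' y : ℤ, |x - l * z.1| ≤ 2 * l → |x' - l * z.1| ≤ 2 * l →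
      |y - l * z.2| ≤ 2 * l → ¬ |y - b.2| ≤ D →
      Jn Nbr ω (S.v (x, y) ω) (S.v (x', y) ω) := by
    intro x x' y h1 h2 h3 h4
    refine line_joined (P := fun t => S.good (t, y) ω)
      (J := fun s t => Jn Nbr ω (S.v (s, y) ω) (S.v (t, y) ω)) ?_ ?_ ?_ ?_ x x' ?_
    · intro t ht; exact S.join _ _ ω (by simp) ht ht
    · intro a b c h1 h2; exact h1.trans h2
    · intro a b h; exact hsymm _ _ h
    · intro t h1 h2; exact S.join _ _ ω (by simp) h1 h2
    · intro t ht
      apply hb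
      · refine ⟨?_, h3⟩
        simp only
        rw [abs_le] at h1 h2 ⊢
        rcases ht with ht | ht <;> constructor <;> linarith [h2.1, h2.2, h1.1, h1.2, ht.1, ht.2]
      · intro hn; exact h4 hn.2
  refine ⟨(xs, ys), ⟨hx1, hy1⟩, ?_, b, ?_⟩
  · exact hb _ ⟨hx1, hy1⟩ (fun hn => hx2 hn.1)
  · rintro ⟨x, y⟩ hw hn
    refine ⟨hb _ hw hn, ?_⟩
    by_cases hxb : |x - b.1| ≤ D
    · have hyb : ¬ |y - b.2| ≤ D := fun h => hn ⟨hxb, h⟩
      exact (hh x xs y hw.1 hx1 hw.2 hyb).trans (hv xs y ys hx1 hw.2 hy1 hx2)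
    · exact (hv x y ys hw.1 hw.2 hy1 hxb).trans (hh x xs ys hw.1 hx1 hy1 hy2)

theorem exists_avoid (lo b b' : ℤ) (D : ℕ) :
    ∃ x : ℤ, lo ≤ x ∧ x ≤ lo + (4 * D + 2) ∧ ¬ |x - b| ≤ D ∧ ¬ |x - b'| ≤ D := by
  by_contra hcon
  have g : ∀ x : ℤ, lo ≤ x → x ≤ lo + (4 * D + 2) →
      (b - D ≤ x ∧ x ≤ b + D) ∨ (b' - D ≤ x ∧ x ≤ b' + D) := by
    intro x h1 h2
    by_contra hc
    apply hcon
    refine ⟨x, h1, h2, ?_, ?_⟩
    · rw [abs_le]; omega
    · rw [abs_le]; omega
  have h1 := g lo le_rfl (by omega)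
  have h2 := g (lo + (2 * D + 1)) (by omega) (by omega)
  have h3 := g (lo + (4 * D + 2)) (by omega) (by omega)
  omega

theorem small_subset {d M L l : ℕ} (hM : 4 ≤ M) (hl : M ≤ l) {z w : ℤ × ℤ} (h : win l z w) :
    box (emb d L w) (M * L) ⊆ box (emb d (l * L) z) (M * (l * L)) := by
  intro x hx
  rw [mem_box] at hx ⊢
  intro i
  have hi := hx i
  have hL : (0 : ℤ) ≤ L := by positivity
  have hMZ : (4 : ℤ) ≤ M := by exact_mod_cast hM
  have hlZ : (M : ℤ) ≤ l := by exact_mod_cast hl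
  have h1 := h.1
  have h2 := h.2
  push_cast at *
  have hbig : (M : ℤ) * L + 2 * l * L ≤ M * (l * L) := by
    have : (M : ℤ) + 2 * l ≤ M * l := by nlinarith
    nlinarith
  have hc : |emb d L w i - emb d (l * L) z i| ≤ 2 * l * L := by
    unfold emb
    split_ifs
    · have e : (L : ℤ) * w.1 - ((l * L : ℕ) : ℤ) * z.1 = L * (w.1 - l * z.1) := by push_cast; ring
      rw [e, abs_mul, abs_of_nonneg hL]
      nlinarith
    · have e : (L : ℤ) * w.2 - ((l * L : ℕ) : ℤ) * z.2 = L * (w.2 - l * z.2) := by push_cast; ring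
      rw [e, abs_mul, abs_of_nonneg hL]
      nlinarith
    · simp; positivity
  have e : x i - emb d (l * L) z i = (x i - emb d L w i) + (emb d L w i - emb d (l * L) z i) := by
    ring
  rw [e]
  refine (abs_add_le _ _).trans ?_
  linarith

theorem trace_trace {d : ℕ} {Q1 Q2 : Finset (Site d)} (h : Q1 ⊆ Q2) (ω : Set (Site d)) :
    trace Q1 (↑(trace Q2 ω) : Set (Site d)) = trace Q1 ω := by
  ext x
  simp only [mem_trace, Finset.mem_coe]
  constructor
  · rintro ⟨h1, _, h2⟩; exact ⟨h1, h2⟩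
  · rintro ⟨h1, h2⟩; exact ⟨h1, h h1, h2⟩

open Classical in
/-- One renormalisation step. -/
noncomputable def renorm {d M : ℕ} (hM : 4 ≤ M) (S : BlockSys d M) : BlockSys d M where
  L := (4 * M + 1) * S.L
  good := good' S (2 * M) (4 * M + 1)
  v := fun z ω => if h : ∃ c, hub S (2 * M) (4 * M + 1) z ω c then S.v h.choose ω else 0
  loc := by
    intro z ω
    unfold good'
    refine exists_congr fun b => forall_congr' fun w => ?_
    refine forall_congr' fun hw => forall_congr' fun _ => ?_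
    rw [S.loc w ω, S.loc w (↑(trace (box (emb d ((4 * M + 1) * S.L) z) (M * ((4 * M + 1) * S.L))) ω)),
      trace_trace (small_subset hM (by omega) hw)]
  mem := by
    intro z ω h
    have h' := exists_hub S (by omega) h
    simp only [dif_pos h']
    exact small_subset hM (by omega) h'.choose_spec.1 (S.mem _ ω h'.choose_spec.2.1)
  join := by
    intro z z' ω hzz' h1 h2
    have h1' := exists_hub S (by omega) h1
    have h2' := exists_hub S (by omega) h2
    simp only [dif_pos h1', dif_pos h2']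
    obtain ⟨-, -, b1, hb1⟩ := h1'.choose_spec
    obtain ⟨-, -, b2, hb2⟩ := h2'.choose_spec
    obtain ⟨x, hx1, hx2, hx3, hx4⟩ := exists_avoid
      (max (((4 * M + 1 : ℕ) : ℤ) * z.1) (((4 * M + 1 : ℕ) : ℤ) * z'.1) - 2 * ((4 * M + 1 : ℕ) : ℤ)) b1.1 b2.1 (2 * M)
    have hz1 : |z.1 - z'.1| ≤ 1 := by linarith [abs_nonneg (z.2 - z'.2)]
    have hz2 : |z.2 - z'.2| ≤ 1 := by linarith [abs_nonneg (z.1 - z'.1)]
    have hz1' : |((4 * M + 1 : ℕ) : ℤ) * z.1 - ((4 * M + 1 : ℕ) : ℤ) * z'.1| ≤ ((4 * M + 1 : ℕ) : ℤ) := by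
      rw [← mul_sub, abs_mul, abs_of_nonneg (by positivity)]
      nlinarith
    have hz2' : |((4 * M + 1 : ℕ) : ℤ) * z.2 - ((4 * M + 1 : ℕ) : ℤ) * z'.2| ≤ ((4 * M + 1 : ℕ) : ℤ) := by
      rw [← mul_sub, abs_mul, abs_of_nonneg (by positivity)]
      nlinarith
    have hw1 : win (4 * M + 1) z (x, ((4 * M + 1 : ℕ) : ℤ) * z.2) := by
      unfold win
      simp only
      refine ⟨?_, ?_⟩
      · rw [abs_le] at hz1' ⊢
        constructor <;> omega
      · simp; positivity
    have hw2 : win (4 * M + 1) z' (x, ((4 * M + 1 : ℕ) : ℤ) * z.2) := by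
      unfold win
      simp only
      refine ⟨?_, ?_⟩
      · rw [abs_le] at hz1' ⊢
        constructor <;> omega
      · refine hz2'.trans ?_
        push_cast; linarith
    have hn1 : ¬ near (2 * M) b1 (x, ((4 * M + 1 : ℕ) : ℤ) * z.2) := fun h => hx3 h.1
    have hn2 : ¬ near (2 * M) b2 (x, ((4 * M + 1 : ℕ) : ℤ) * z.2) := fun h => hx4 h.1
    have j1 := (hb1 _ hw1 hn1).2
    have j2 := (hb2 _ hw2 hn2).2
    exact (j1.symm Nbr_symm).trans j2

theorem trace_union_inter_left {d : ℕ} (Q1 Q2 : Finset (Site d)) (ω : Set (Site d)) :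
    trace (Q1 ∪ Q2) ω ∩ Q1 = trace Q1 ω := by
  ext x; simp only [Finset.mem_inter, mem_trace, Finset.mem_union]; tauto

theorem trace_union_inter_right {d : ℕ} (Q1 Q2 : Finset (Site d)) (ω : Set (Site d)) :
    trace (Q1 ∪ Q2) ω ∩ Q2 = trace Q2 ω := by
  ext x; simp only [Finset.mem_inter, mem_trace, Finset.mem_union]; tauto

/-- Independence of local events on disjoint sets of sites. -/
theorem mu_indep {d : ℕ} (p : unitInterval) {Q1 Q2 : Finset (Site d)} (hd : Disjoint Q1 Q2)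
    (A B : Finset (Site d) → Prop) :
    mu d p {ω | A (trace Q1 ω) ∧ B (trace Q2 ω)} =
      mu d p {ω | A (trace Q1 ω)} * mu d p {ω | B (trace Q2 ω)} := by
  have h1 := mu_trace p (Q1 ∪ Q2) (fun η => A (η ∩ Q1) ∧ B (η ∩ Q2))
  simp only [trace_union_inter_left, trace_union_inter_right] at h1
  rw [h1, mu_trace p Q1 A, mu_trace p Q2 B,
    Pr_and_of_disjoint _ Finset.subset_union_left Finset.subset_union_right hd,
    ENNReal.ofReal_mul (Pr_nonneg p.2.1 p.2.2 _ _)]

theorem box_disjoint {d M L : ℕ} (hd : 2 ≤ d) (hL : 1 ≤ L) {w w' : ℤ × ℤ}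
    (h : ¬ near (2 * M) w w') :
    Disjoint (box (emb d L w) (M * L)) (box (emb d L w') (M * L)) := by
  rw [Finset.disjoint_left]
  intro x hx hx'
  rw [mem_box] at hx hx'
  apply h
  have hLZ : (1 : ℤ) ≤ L := by exact_mod_cast hL
  have key : ∀ (a b : ℤ), |x ⟨0, by omega⟩ - L * a| ≤ M * L → |x ⟨0, by omega⟩ - L * b| ≤ M * L →
      |b - a| ≤ 2 * M := by
    intro a b h1 h2
    have h3 : |(L : ℤ) * (b - a)| ≤ 2 * (M * L) := by
      have e : (L : ℤ) * (b - a) = (x ⟨0, by omega⟩ - L * a) - (x ⟨0, by omega⟩ - L * b) := by ring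
      rw [e]
      exact (abs_sub _ _).trans (by linarith)
    rw [abs_mul, abs_of_nonneg (by positivity : (0 : ℤ) ≤ L)] at h3
    by_contra h4
    push Not at h4
    nlinarith
  have key1 : ∀ (a b : ℤ), |x ⟨1, by omega⟩ - L * a| ≤ M * L → |x ⟨1, by omega⟩ - L * b| ≤ M * L →
      |b - a| ≤ 2 * M := by
    intro a b h1 h2
    have h3 : |(L : ℤ) * (b - a)| ≤ 2 * (M * L) := by
      have e : (L : ℤ) * (b - a) = (x ⟨1, by omega⟩ - L * a) - (x ⟨1, by omega⟩ - L * b) := by ring
      rw [e]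
      exact (abs_sub _ _).trans (by linarith)
    rw [abs_mul, abs_of_nonneg (by positivity : (0 : ℤ) ≤ L)] at h3
    by_contra h4
    push Not at h4
    nlinarith
  have a0 := hx ⟨0, by omega⟩
  have a1 := hx ⟨1, by omega⟩
  have b0 := hx' ⟨0, by omega⟩
  have b1 := hx' ⟨1, by omega⟩
  simp only [emb] at a0 a1 b0 b1
  push_cast at a0 a1 b0 b1
  constructor
  · push_cast
    exact key w.1 w'.1 (by simpa using a0) (by simpa using b0)
  · push_cast
    exact key1 w.2 w'.2 (by simpa using a1) (by simpa using b1)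

/-- The finite window of planar indices. -/
noncomputable def winF (l : ℕ) (z : ℤ × ℤ) : Finset (ℤ × ℤ) :=
  Finset.Icc (l * z.1 - 2 * l) (l * z.1 + 2 * l) ×ˢ Finset.Icc (l * z.2 - 2 * l) (l * z.2 + 2 * l)

theorem mem_winF {l : ℕ} {z w : ℤ × ℤ} : w ∈ winF l z ↔ win l z w := by
  unfold winF win
  rw [Finset.mem_product, Finset.mem_Icc, Finset.mem_Icc, abs_le, abs_le]
  constructor
  · rintro ⟨⟨h1, h2⟩, h3, h4⟩
    refine ⟨⟨?_, ?_⟩, ?_, ?_⟩ <;> linarith
  · rintro ⟨⟨h1, h2⟩, h3, h4⟩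
    refine ⟨⟨?_, ?_⟩, ?_, ?_⟩ <;> linarith

theorem card_winF (l : ℕ) (z : ℤ × ℤ) : (winF l z).card = (4 * l + 1) ^ 2 := by
  unfold winF
  rw [Finset.card_product, Int.card_Icc, Int.card_Icc, sq]
  congr 1
  · have : ((l : ℤ) * z.1 + 2 * l + 1 - (l * z.1 - 2 * l)) = ((4 * l + 1 : ℕ) : ℤ) := by
      push_cast; ring
    rw [this, Int.toNat_natCast]
  · have : ((l : ℤ) * z.2 + 2 * l + 1 - (l * z.2 - 2 * l)) = ((4 * l + 1 : ℕ) : ℤ) := by
      push_cast; ring
    rw [this, Int.toNat_natCast]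

theorem renorm_bad {d M : ℕ} (hd : 2 ≤ d) (hM : 4 ≤ M) (S : BlockSys d M) (hL : 1 ≤ S.L)
    (p : unitInterval) (q : ℝ) (hq : 0 ≤ q)
    (h : ∀ z, mu d p {ω | ¬ S.good z ω} ≤ ENNReal.ofReal q) (z : ℤ × ℤ) :
    mu d p {ω | ¬ (renorm hM S).good z ω} ≤ ENNReal.ofReal ((16 * M + 5) ^ 4 * q ^ 2) := by
  classical
  set l := 4 * M + 1 with hl
  have hsub : {ω | ¬ (renorm hM S).good z ω} ⊆
      ⋃ w ∈ winF l z, ⋃ w' ∈ winF l z,
        {ω | ¬ near (2 * M) w w' ∧ ¬ S.good w ω ∧ ¬ S.good w' ω} := by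
    intro ω hω
    simp only [Set.mem_iUnion, Set.mem_ofPred_eq]
    change ¬ good' S (2 * M) (4 * M + 1) z ω at hω
    unfold good' at hω
    push Not at hω
    obtain ⟨w, hw, -, hbad⟩ := hω (z.1 * l + 10 * l, 0)
    obtain ⟨w', hw', hn, hbad'⟩ := hω w
    exact ⟨w, mem_winF.2 hw, w', mem_winF.2 hw', hn, hbad, hbad'⟩
  have hone : ∀ w w', mu d p {ω | ¬ near (2 * M) w w' ∧ ¬ S.good w ω ∧ ¬ S.good w' ω} ≤
      ENNReal.ofReal (q ^ 2) := by
    intro w w'
    by_cases hn : near (2 * M) w w'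
    · have : {ω | ¬ near (2 * M) w w' ∧ ¬ S.good w ω ∧ ¬ S.good w' ω} = ∅ := by
        ext ω; simp [hn]
      rw [this]; simp
    · have hdis := box_disjoint (d := d) (L := S.L) hd hL hn
      have e : {ω | ¬ near (2 * M) w w' ∧ ¬ S.good w ω ∧ ¬ S.good w' ω} =
          {ω | ¬ S.good w (↑(trace (box (emb d S.L w) (M * S.L)) ω)) ∧
            ¬ S.good w' (↑(trace (box (emb d S.L w') (M * S.L)) ω))} := by
        ext ω
        simp only [Set.mem_ofPred_eq]
        rw [← S.loc w ω, ← S.loc w' ω]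
        tauto
      rw [e, mu_indep p hdis (fun η => ¬ S.good w (↑η)) (fun η => ¬ S.good w' (↑η)), sq,
        ENNReal.ofReal_mul hq]
      have e1 : {ω : Set (Site d) | ¬ S.good w (↑(trace (box (emb d S.L w) (M * S.L)) ω))} =
          {ω | ¬ S.good w ω} := by
        ext ω; simp only [Set.mem_ofPred_eq]; rw [← S.loc w ω]
      have e2 : {ω : Set (Site d) | ¬ S.good w' (↑(trace (box (emb d S.L w') (M * S.L)) ω))} =
          {ω | ¬ S.good w' ω} := by
        ext ω; simp only [Set.mem_ofPred_eq]; rw [← S.loc w' ω]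
      rw [e1, e2]
      exact mul_le_mul' (h w) (h w')
  calc mu d p {ω | ¬ (renorm hM S).good z ω}
      ≤ mu d p (⋃ w ∈ winF l z, ⋃ w' ∈ winF l z,
        {ω | ¬ near (2 * M) w w' ∧ ¬ S.good w ω ∧ ¬ S.good w' ω}) := measure_mono hsub
    _ ≤ ∑ w ∈ winF l z, mu d p (⋃ w' ∈ winF l z,
        {ω | ¬ near (2 * M) w w' ∧ ¬ S.good w ω ∧ ¬ S.good w' ω}) :=
        measure_biUnion_finset_le _ _
    _ ≤ ∑ w ∈ winF l z, ∑ w' ∈ winF l z, mu d p
        {ω | ¬ near (2 * M) w w' ∧ ¬ S.good w ω ∧ ¬ S.good w' ω} :=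
        Finset.sum_le_sum (fun w _ => measure_biUnion_finset_le _ _)
    _ ≤ ∑ w ∈ winF l z, ∑ w' ∈ winF l z, ENNReal.ofReal (q ^ 2) :=
        Finset.sum_le_sum (fun w _ => Finset.sum_le_sum (fun w' _ => hone w w'))
    _ = ENNReal.ofReal ((16 * M + 5) ^ 4 * q ^ 2) := by
        rw [Finset.sum_const, Finset.sum_const, card_winF, nsmul_eq_mul, nsmul_eq_mul,
          ← ENNReal.ofReal_natCast, ← ENNReal.ofReal_mul (by positivity),
          ← ENNReal.ofReal_mul (by positivity)]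
        congr 1
        rw [hl]
        push_cast
        ring

/-- The block system at scale `k`. -/
noncomputable def scale {d M : ℕ} (hM : 4 ≤ M) (S : BlockSys d M) : ℕ → BlockSys d M
  | 0 => S
  | k + 1 => renorm hM (scale hM S k)

theorem scale_L {d M : ℕ} (hM : 4 ≤ M) (S : BlockSys d M) (hL : 1 ≤ S.L) (k : ℕ) :
    k + 1 ≤ (scale hM S k).L := by
  induction k with
  | zero => simpa [scale] using hL
  | succ k ih =>
    change k + 1 + 1 ≤ (4 * M + 1) * (scale hM S k).L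
    nlinarith

theorem scale_bad {d M : ℕ} (hd : 2 ≤ d) (hM : 4 ≤ M) (S : BlockSys d M) (hL : 1 ≤ S.L)
    (p : unitInterval)
    (h : ∀ z, mu d p {ω | ¬ S.good z ω} ≤ ENNReal.ofReal (1 / (4 * (16 * M + 5) ^ 4))) (k : ℕ)
    (z : ℤ × ℤ) :
    mu d p {ω | ¬ (scale hM S k).good z ω} ≤
      ENNReal.ofReal ((1 / 4) ^ (k + 1) / (16 * M + 5) ^ 4) := by
  induction k generalizing z with
  | zero =>
    refine (h z).trans (ENNReal.ofReal_le_ofReal (le_of_eq ?_))
    field_simp
    norm_num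
  | succ k ih =>
    have hL' : 1 ≤ (scale hM S k).L := le_trans (by omega) (scale_L hM S hL k)
    refine (renorm_bad hd hM (scale hM S k) hL' p _ (by positivity) ih z).trans ?_
    apply ENNReal.ofReal_le_ofReal
    have hK : (0 : ℝ) < (16 * M + 5) ^ 4 := by positivity
    rw [div_pow, ← pow_mul]
    have h1 : ((1 : ℝ) / 4) ^ ((k + 1) * 2) ≤ (1 / 4) ^ (k + 1 + 1) :=
      pow_le_pow_of_le_one (by norm_num) (by norm_num) (by omega)
    calc ((16 * (M : ℝ) + 5) ^ 4) * ((1 / 4) ^ ((k + 1) * 2) / ((16 * M + 5) ^ 4) ^ 2)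
        = (1 / 4) ^ ((k + 1) * 2) / (16 * M + 5) ^ 4 := by
          field_simp
      _ ≤ _ := by gcongr

/-- central window -/
noncomputable def cw (r : ℕ) : Finset (ℤ × ℤ) := Finset.Icc (-(r : ℤ)) r ×ˢ Finset.Icc (-(r : ℤ)) r

theorem mem_cw {r : ℕ} {w : ℤ × ℤ} : w ∈ cw r ↔ |w.1| ≤ r ∧ |w.2| ≤ r := by
  unfold cw
  rw [Finset.mem_product, Finset.mem_Icc, Finset.mem_Icc, abs_le, abs_le]

theorem zero_mem_cw (r : ℕ) : ((0, 0) : ℤ × ℤ) ∈ cw r := by
  rw [mem_cw]; simp

theorem card_cw (r : ℕ) : (cw r).card = (2 * r + 1) ^ 2 := by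
  unfold cw
  rw [Finset.card_product, Int.card_Icc, sq]
  have : ((r : ℤ) + 1 - (-(r : ℤ))) = ((2 * r + 1 : ℕ) : ℤ) := by push_cast; ring
  rw [this, Int.toNat_natCast]

theorem scale_event {d M : ℕ} (hd : 2 ≤ d) (hM : 4 ≤ M) (S : BlockSys d M) (hL : 1 ≤ S.L)
    (p : unitInterval)
    (h : ∀ z, mu d p {ω | ¬ S.good z ω} ≤ ENNReal.ofReal (1 / (4 * (16 * M + 5) ^ 4))) :
    mu d p {ω | ∀ k, ∀ w ∈ cw (4 * M + 1), (scale hM S k).good w ω} ≠ 0 := by
  intro h0
  have hun : (Set.univ : Set (Set (Site d))) ⊆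
      {ω | ∀ k, ∀ w ∈ cw (4 * M + 1), (scale hM S k).good w ω} ∪
        ⋃ k : ℕ, ⋃ w ∈ cw (4 * M + 1), {ω | ¬ (scale hM S k).good w ω} := by
    intro ω _
    by_cases hω : ∀ k, ∀ w ∈ cw (4 * M + 1), (scale hM S k).good w ω
    · exact Or.inl hω
    · right
      push Not at hω
      obtain ⟨k, w, hw, hb⟩ := hω
      simp only [Set.mem_iUnion, Set.mem_ofPred_eq]
      exact ⟨k, w, hw, hb⟩
  have h1 : mu d p (⋃ k : ℕ, ⋃ w ∈ cw (4 * M + 1), {ω | ¬ (scale hM S k).good w ω}) ≤
      ENNReal.ofReal (1 / 3) := by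
    calc mu d p (⋃ k : ℕ, ⋃ w ∈ cw (4 * M + 1), {ω | ¬ (scale hM S k).good w ω})
        ≤ ∑' k : ℕ, mu d p (⋃ w ∈ cw (4 * M + 1), {ω | ¬ (scale hM S k).good w ω}) :=
          measure_iUnion_le _
      _ ≤ ∑' k : ℕ, ENNReal.ofReal ((1 / 4) ^ (k + 1)) := by
          apply ENNReal.tsum_le_tsum
          intro k
          refine (measure_biUnion_finset_le _ _).trans ?_
          refine (Finset.sum_le_sum (fun w _ => scale_bad hd hM S hL p h k w)).trans ?_
          rw [Finset.sum_const, card_cw, nsmul_eq_mul, ← ENNReal.ofReal_natCast,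
            ← ENNReal.ofReal_mul (by positivity)]
          apply ENNReal.ofReal_le_ofReal
          have hK : (0 : ℝ) < (16 * M + 5) ^ 4 := by positivity
          have hle : (((2 * (4 * M + 1) + 1) ^ 2 : ℕ) : ℝ) ≤ (16 * M + 5) ^ 4 := by
            push_cast
            have : (0 : ℝ) ≤ M := by positivity
            have h1 : (2 * (4 * (M : ℝ) + 1) + 1) ^ 2 ≤ (16 * M + 5) ^ 2 := by
              apply pow_le_pow_left₀ (by positivity); linarith
            have h2 : (16 * (M : ℝ) + 5) ^ 2 ≤ (16 * M + 5) ^ 4 :=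
              pow_le_pow_right₀ (by linarith) (by norm_num)
            exact h1.trans h2
          rw [mul_div_assoc', div_le_iff₀ hK, mul_comm]
          exact mul_le_mul_of_nonneg_left hle (by positivity)
      _ = ENNReal.ofReal (∑' k : ℕ, (1 / 4 : ℝ) ^ (k + 1)) := by
          rw [ENNReal.ofReal_tsum_of_nonneg]
          · intro n; positivity
          · simp_rw [pow_succ]
            exact (summable_geometric_of_lt_one (by norm_num) (by norm_num)).mul_right _
      _ ≤ ENNReal.ofReal (1 / 3) := by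
          apply ENNReal.ofReal_le_ofReal
          simp_rw [pow_succ]
          rw [tsum_mul_right, tsum_geometric_of_lt_one (by norm_num) (by norm_num)]
          norm_num
  have h2 := (measure_mono hun).trans (measure_union_le (μ := mu d p) _ _)
  rw [h0, zero_add, measure_univ] at h2
  have h3 : (1 : ENNReal) ≤ ENNReal.ofReal (1 / 3) := h2.trans h1
  rw [← ENNReal.ofReal_one, ENNReal.ofReal_le_ofReal_iff (by norm_num)] at h3
  norm_num at h3

theorem line_h {d M : ℕ} (S : BlockSys d M) {ω : Set (Site d)} {r : ℕ}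
    (hg : ∀ w ∈ cw r, S.good w ω) (x x' : ℤ) (hx : |x| ≤ r) (hx' : |x'| ≤ r) :
    Jn Nbr ω (S.v (x, 0) ω) (S.v (x', 0) ω) := by
  refine line_joined (P := fun t => S.good (t, 0) ω)
    (J := fun s t => Jn Nbr ω (S.v (s, 0) ω) (S.v (t, 0) ω)) ?_ ?_ ?_ ?_ x x' ?_
  · intro t ht; exact S.join _ _ ω (by simp) ht ht
  · intro a b c h1 h2; exact h1.trans h2
  · intro a b h; exact h.symm Nbr_symm
  · intro t h1 h2; exact S.join _ _ ω (by simp) h1 h2
  · intro t ht
    apply hg
    rw [mem_cw]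
    refine ⟨?_, by simp⟩
    simp only
    rw [abs_le] at hx hx' ⊢
    omega

theorem link {d M : ℕ} (hM : 4 ≤ M) (S : BlockSys d M) {ω : Set (Site d)}
    (hg : ∀ w ∈ cw (4 * M + 1), S.good w ω)
    (hg' : ∀ w ∈ cw (4 * M + 1), (renorm hM S).good w ω) :
    Jn Nbr ω (S.v (0, 0) ω) ((renorm hM S).v (0, 0) ω) := by
  have h0 : (renorm hM S).good (0, 0) ω := hg' _ (zero_mem_cw _)
  have h' := exists_hub S (D := 2 * M) (l := 4 * M + 1) (by omega) h0
  have hv : (renorm hM S).v (0, 0) ω = S.v h'.choose ω := by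
    simp only [renorm]
    rw [dif_pos h']
  rw [hv]
  obtain ⟨-, -, b, hb⟩ := h'.choose_spec
  obtain ⟨x, hx, hxb⟩ : ∃ x : ℤ, |x| ≤ ((4 * M + 1 : ℕ) : ℤ) ∧ ¬ |x - b.1| ≤ ((2 * M : ℕ) : ℤ) := by
    by_cases h : 0 ≤ b.1
    · refine ⟨-((4 * M + 1 : ℕ) : ℤ), ?_, ?_⟩
      · rw [abs_neg, abs_of_nonneg (by positivity)]
      · rw [abs_le]; push_cast; omega
    · refine ⟨((4 * M + 1 : ℕ) : ℤ), ?_, ?_⟩
      · rw [abs_of_nonneg (by positivity)]
      · rw [abs_le]; push_cast; omega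
  have hw : win (4 * M + 1) (0, 0) (x, 0) := by
    unfold win
    simp only [mul_zero, sub_zero, abs_zero]
    constructor
    · refine hx.trans ?_
      push_cast; linarith
    · positivity
  have j1 := (hb (x, 0) hw (fun hn => hxb hn.1)).2
  exact (line_h S hg 0 x (by rw [abs_zero]; positivity) hx).trans j1

/-- **Finite-size criterion** (block-system form). -/
theorem fsc_aux {d M : ℕ} (hd : 2 ≤ d) (hM : 4 ≤ M) (S : BlockSys d M) (hL : 1 ≤ S.L)
    (p : unitInterval)
    (h : ∀ z, mu d p {ω | ¬ S.good z ω} ≤ ENNReal.ofReal (1 / (4 * (16 * M + 5) ^ 4))) :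
    theta d p ≠ 0 := by
  have hev := scale_event hd hM S hL p h
  -- on the event, the cluster of the representative is infinite
  have hinf : ∀ ω ∈ {ω | ∀ k, ∀ w ∈ cw (4 * M + 1), (scale hM S k).good w ω},
      (cluster ω (S.v (0, 0) ω)).Infinite := by
    intro ω hω
    have hω' : ∀ k, ∀ w ∈ cw (4 * M + 1), (scale hM S k).good w ω := hω
    have hk : ∀ k, Jn Nbr ω (S.v (0, 0) ω) ((scale hM S k).v (0, 0) ω) := by
      intro k
      induction k with
      | zero =>
        have := hω' 0 (0, 0) (zero_mem_cw _)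
        exact S.join _ _ ω (by simp) this this
      | succ k ih => exact ih.trans (link hM (scale hM S k) (hω' k) (hω' (k + 1)))
    have hfar : ∀ k : ℕ, ∃ y ∈ cluster ω (S.v (0, 0) ω), (k : ℤ) ≤ y ⟨0, by omega⟩ := by
      intro k
      refine ⟨(scale hM S k).v (((2 * M + 1 : ℕ) : ℤ), 0) ω, ?_, ?_⟩
      · refine (hk k).trans (line_h _ (hω' k) 0 _ (by rw [abs_zero]; positivity) ?_)
        rw [abs_of_nonneg (by positivity)]
        push_cast; linarith
      · have hgood := hω' k (((2 * M + 1 : ℕ) : ℤ), 0) (by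
          rw [mem_cw]
          refine ⟨?_, by rw [abs_zero]; positivity⟩
          rw [abs_of_nonneg (by positivity)]
          push_cast; linarith)
        have hm := (scale hM S k).mem _ ω hgood
        generalize (scale hM S k).v (((2 * M + 1 : ℕ) : ℤ), 0) ω = y at hm ⊢
        rw [mem_box] at hm
        have hm0 := hm ⟨0, by omega⟩
        simp only [emb] at hm0
        have hLk : ((k + 1 : ℕ) : ℤ) ≤ ((scale hM S k).L : ℤ) := by
          exact_mod_cast scale_L hM S hL k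
        have hm1 := (abs_le.1 hm0).1
        simp only [if_true] at hm1
        push_cast at hm1 hLk
        nlinarith [hm1, hLk, mul_nonneg (by positivity : (0:ℤ) ≤ M) (by positivity : (0:ℤ) ≤ ((scale hM S k).L : ℤ))]
    intro hfin
    have hb : ((fun y : Site d => y ⟨0, by omega⟩) '' (cluster ω (S.v (0, 0) ω))).Finite :=
      hfin.image _
    obtain ⟨m, hm⟩ := hb.bddAbove
    obtain ⟨y, hy, hy2⟩ := hfar (m.toNat + 1)
    have : y ⟨0, by omega⟩ ≤ m := hm (Set.mem_image_of_mem _ hy)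
    push_cast at hy2
    omega
  intro h0
  apply hev
  have hsub : {ω | ∀ k, ∀ w ∈ cw (4 * M + 1), (scale hM S k).good w ω} ⊆
      ⋃ x : Site d, {ω | (cluster ω x).Infinite} := by
    intro ω hω
    rw [Set.mem_iUnion]
    exact ⟨_, hinf ω hω⟩
  apply measure_mono_null hsub
  rw [measure_iUnion_null_iff]
  intro x
  have hsh := mu_shift p x {ω | (cluster ω 0).Infinite}
  rw [show mu d p {ω | (cluster ω 0).Infinite} = 0 from h0] at hsh
  rw [← hsh]
  congr 1
  ext ω
  simp only [Set.mem_ofPred_eq]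
  have e : cluster {y | y + x ∈ ω} 0 = (fun y => y + x) ⁻¹' cluster ω x := by
    ext y
    simp only [cluster, Set.mem_ofPred_eq, Set.mem_preimage]
    have h1 := Jn_map_iff (Equiv.addRight x) (adj := Nbr) (adj' := Nbr)
      (fun a b => Nbr_add x) {y | y + x ∈ ω} 0 y
    rw [← h1]
    have h2 : (Equiv.addRight x) '' {y | y + x ∈ ω} = ω := by
      ext y
      simp only [Set.mem_image, Set.mem_ofPred_eq, Equiv.coe_addRight]
      constructor
      · rintro ⟨z, hz, rfl⟩; exact hz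
      · intro hy; exact ⟨y - x, by simpa using hy, by simp⟩
    rw [h2]
    simp
  rw [e]
  constructor
  · intro hi hf
    apply hi
    have : cluster ω x = (fun y => y + x) '' ((fun y => y + x) ⁻¹' cluster ω x) := by
      rw [Set.image_preimage_eq]
      intro y; exact ⟨y - x, by simp⟩
    rw [this]
    exact hf.image _
  · intro hi hf
    apply hi
    exact hf.preimage (fun a _ b _ hab => by simpa using hab)

/-- **Finite-size criterion.** There is a threshold depending only on the relative range `M` such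
that, whenever block events of range `M * L` with joined representatives fail with
probability at most that threshold, the percolation probability is positive. -/
theorem fsc {d : ℕ} (hd : 2 ≤ d) (M : ℕ) : ∃ q : ℝ, 0 < q ∧ ∀ (p : unitInterval) (L : ℕ), 1 ≤ L →
    ∀ (good : ℤ × ℤ → Set (Site d) → Prop) (v : ℤ × ℤ → Set (Site d) → Site d),
    (∀ z ω, good z ω ↔ good z (↑(trace (box (emb d L z) (M * L)) ω) : Set (Site d))) →
    (∀ z ω, good z ω → v z ω ∈ box (emb d L z) (M * L)) →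
    (∀ z z' ω, |z.1 - z'.1| + |z.2 - z'.2| ≤ 1 → good z ω → good z' ω →
      Jn Nbr ω (v z ω) (v z' ω)) →
    (∀ z, mu d p {ω | ¬ good z ω} ≤ ENNReal.ofReal q) → theta d p ≠ 0 := by
  refine ⟨1 / (4 * (16 * ((M + 4 : ℕ) : ℝ) + 5) ^ 4), by positivity, ?_⟩
  intro p L hL good v hloc hmem hjoin hq
  have hsub : ∀ z, box (emb d L z) (M * L) ⊆ box (emb d L z) ((M + 4) * L) := by
    intro z
    apply box_mono
    nlinarith
  let S : BlockSys d (M + 4) :=
    { L := L
      good := good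
      v := v
      loc := by
        intro z ω
        rw [hloc z ω, hloc z (↑(trace (box (emb d L z) ((M + 4) * L)) ω)), trace_trace (hsub z)]
      mem := fun z ω h => hsub z (hmem z ω h)
      join := hjoin }
  exact fsc_aux hd (by omega) S hL p hq

/-- The critical parameter is smaller than one. -/
theorem pc_lt_one {d : ℕ} (hd : 2 ≤ d) : pc d < 1 := by
  obtain ⟨q, hq, h⟩ := fsc hd 1
  set q' : ℝ := min q (1 / 2) with hq'
  have hq'0 : 0 < q' := lt_min hq (by norm_num)
  have hq'1 : q' ≤ 1 / 2 := min_le_right _ _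
  let p : unitInterval := ⟨1 - q', by constructor <;> linarith⟩
  have hp : theta d p ≠ 0 := by
    apply h p 1 le_rfl (fun z ω => emb d 1 z ∈ ω) (fun z _ => emb d 1 z)
    · intro z ω
      rw [Finset.mem_coe, mem_trace]
      simp [self_mem_box]
    · intro z ω _
      exact self_mem_box _ _
    · intro z z' ω hzz' h1 h2
      by_cases he : z = z'
      · subst he; exact Jn.refl h1
      · apply Jn.single h1 _ h2
        have hz1 : |z.1 - z'.1| + |z.2 - z'.2| = 1 := by
          apply le_antisymm hzz'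
          by_contra hlt
          apply he
          have h3 := abs_nonneg (z.1 - z'.1)
          have h4 := abs_nonneg (z.2 - z'.2)
          have h5 : |z.1 - z'.1| = 0 := by omega
          have h6 : |z.2 - z'.2| = 0 := by omega
          rw [abs_eq_zero] at h5 h6
          ext <;> linarith
        unfold Nbr
        obtain ⟨k, rfl⟩ : ∃ k, d = k + 2 := ⟨d - 2, by omega⟩
        rw [Fin.sum_univ_succ, Fin.sum_univ_succ]
        have : ∑ i : Fin k, |emb (k + 2) 1 z i.succ.succ - emb (k + 2) 1 z' i.succ.succ| = 0 := by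
          apply Finset.sum_eq_zero
          intro i _
          simp [emb]
        rw [this]
        simpa [emb] using hz1
    · intro z
      have e : {ω : Set (Site d) | ¬ emb d 1 z ∈ ω} =
          {ω | (fun η : Finset (Site d) => ¬ emb d 1 z ∈ η) (trace {emb d 1 z} ω)} := by
        ext ω
        simp [mem_trace]
      rw [e, mu_trace p {emb d 1 z} (fun η : Finset (Site d) => ¬ emb d 1 z ∈ η)]
      apply ENNReal.ofReal_le_ofReal
      have : Pr (p : ℝ) {emb d 1 z} (fun η : Finset (Site d) => ¬ emb d 1 z ∈ η) = q' := by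
        unfold Pr
        rw [show ({emb d 1 z} : Finset (Site d)) = insert (emb d 1 z) ∅ from rfl,
          E_insert _ (by simp), E_empty, E_empty]
        simp [p]
      rw [this]
      exact min_le_left _ _
  refine lt_of_le_of_lt (pc_le_of_theta_ne_zero hp) ?_
  rw [← Subtype.coe_lt_coe]
  simp only [p]
  change 1 - q' < 1
  linarith

/-- The finite-size criterion at the critical point. -/
theorem fsc_critical {d : ℕ} (hd : 2 ≤ d) (hpc0 : 0 < pc d) (M : ℕ) : ∃ q : ℝ, 0 < q ∧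
    ∀ (L : ℕ), 1 ≤ L →
    ∀ (good : ℤ × ℤ → Set (Site d) → Prop) (v : ℤ × ℤ → Set (Site d) → Site d),
    (∀ z ω, good z ω ↔ good z (↑(trace (box (emb d L z) (M * L)) ω) : Set (Site d))) →
    (∀ z ω, good z ω → v z ω ∈ box (emb d L z) (M * L)) →
    (∀ z z' ω, |z.1 - z'.1| + |z.2 - z'.2| ≤ 1 → good z ω → good z' ω →
      Jn Nbr ω (v z ω) (v z' ω)) →
    (∀ p z, mu d p {ω | ¬ good z ω} ≤ mu d p {ω | ¬ good (0, 0) ω}) →
    q ≤ Pr (pc d : ℝ) (box (emb d L (0, 0)) (M * L)) (fun η => ¬ good (0, 0) (↑η)) := by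
  obtain ⟨q, hq, h⟩ := fsc hd M
  refine ⟨q, hq, ?_⟩
  intro L hL good v hloc hmem hjoin hti
  by_contra hlt
  push Not at hlt
  set f : ℝ → ℝ := fun p => Pr p (box (emb d L (0, 0)) (M * L)) (fun η => ¬ good (0, 0) (↑η))
    with hf
  have hcont : Continuous f := continuous_Pr _ _
  have hmu : ∀ p : unitInterval, mu d p {ω | ¬ good (0, 0) ω} = ENNReal.ofReal (f p) := by
    intro p
    rw [hf, ← mu_trace]
    congr 1
    ext ω
    simp only [Set.mem_ofPred_eq]
    rw [hloc (0, 0) ω]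
  have hev : ∀ᶠ x in 𝓝 (pc d : ℝ), f x < q := hcont.continuousAt.eventually (gt_mem_nhds hlt)
  obtain ⟨ε, hε, hball⟩ := Metric.eventually_nhds_iff.1 hev
  have hpc0' : (0 : ℝ) < (pc d : ℝ) := hpc0
  have hpc1' : (pc d : ℝ) ≤ 1 := (pc d).2.2
  set δ := min (ε / 2) ((pc d : ℝ) / 2) with hδ
  have hδ0 : 0 < δ := lt_min (by linarith) (by linarith)
  have hδ1 : δ ≤ ε / 2 := min_le_left _ _
  have hδ2 : δ ≤ (pc d : ℝ) / 2 := min_le_right _ _
  let p : unitInterval := ⟨(pc d : ℝ) - δ, by constructor <;> linarith⟩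
  have hp : f (p : ℝ) < q := by
    apply hball
    rw [Real.dist_eq]
    change |(pc d : ℝ) - δ - (pc d : ℝ)| < ε
    rw [sub_sub_cancel_left, abs_neg, abs_of_pos hδ0]
    linarith
  have hθ : theta d p ≠ 0 := by
    apply h p L hL good v hloc hmem hjoin
    intro z
    refine (hti p z).trans ?_
    rw [hmu]
    exact ENNReal.ofReal_le_ofReal hp.le
  apply hθ
  apply theta_eq_zero_of_lt_pc
  rw [← Subtype.coe_lt_coe]
  change (pc d : ℝ) - δ < (pc d : ℝ)
  linarith

end Pool.Agent.Perc
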